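import Pool.Agent.Q171.SD.LLN

/-!
# The fluid value of the last student
-/

namespace Q171SD

open Finset Filter Topology

lemma inv_lam (m : ℕ) {N : ℕ} (hN : 1 ≤ N) {s : ℝ} (hs : 0 ≤ s) :
    1 / lam N (YY (m + 1) s) = eps (m + 1) s / (1 - YY (m + 1) s ^ N) := by
  have h1 := lam_mul N (YY (m + 1) s)
  have h2 : 1 - YY (m + 1) s = eps (m + 1) s := by unfold YY; ring
  rw [h2] at h1
  have h3 := one_sub_pow_pos m hN hs
  have h4 := one_le_lam hN (YY_nonneg (m + 1) hs)
  rw [div_eq_div_iff (by linarith) h3.ne', one_mul, mul_comm]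
  exact h1.symm

lemma inv_lam' (m : ℕ) {N : ℕ} (hN : 1 ≤ N) {s : ℝ} (hs : 0 ≤ s) :
    1 / lam N (YY (m + 1) s) = eps (m + 1) s
      + eps (m + 1) s * (YY (m + 1) s ^ N / (1 - YY (m + 1) s ^ N)) := by
  rw [inv_lam m hN hs]
  have h3 := one_sub_pow_pos m hN hs
  field_simp
  ring

/-- The lower potential. -/
noncomputable def VV (m d : ℕ) (S : ℝ) (s : ℝ) : ℝ :=
  ((m + 1 : ℕ) : ℝ) - rem (m + 1) s + rat m S * KK m (d + 1) s

lemma VV_prop (m : ℕ) {d : ℕ} (hd : 1 ≤ d) {S : ℝ} (a b : ℝ) (ha : 0 ≤ a)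
    (hab : a ≤ b) (hb : b ≤ S) :
    VV m d S b - VV m d S a ≤ (b - a) / lam d (YY (m + 1) a) := by
  rcases eq_or_lt_of_le hab with h | h
  · rw [h]; simp
  have hder : ∀ x, 0 ≤ x → HasDerivAt (VV m d S) (eps (m + 1) x
      + rat m S * (pw m x * YY (m + 1) x ^ d / (1 - YY (m + 1) x ^ (d + 1)))) x := by
    intro x hx
    have h1 := (hasDerivAt_rem (m + 1) x).const_sub ((m + 1 : ℕ) : ℝ)
    have h2 := (hasDerivAt_KK m (N := d + 1) (by omega) hx).const_mul (rat m S)
    have h3 := h1.add h2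
    refine h3.congr_deriv ?_
    simp
  obtain ⟨c, hc, hc'⟩ := exists_hasDerivAt_eq_slope (VV m d S) _ h
    (fun x hx => (hder x (ha.trans hx.1)).continuousAt.continuousWithinAt)
    (fun x hx => hder x (ha.trans hx.1.le))
  have hc0 : 0 < c := lt_of_le_of_lt ha hc.1
  have hcS : c ≤ S := hc.2.le.trans hb
  have hp := pw_pos m hc0
  have hY0 := YY_nonneg (m + 1) hc0.le
  have hY1 := YY_lt_one m hc0.le
  have hpos1 := one_sub_pow_pos m hd hc0.le
  have hpos2 := one_sub_pow_pos m (N := d + 1) (by omega) hc0.le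
  have hr : rat m S ≤ rat m c := rat_antitone m hc0 hcS
  have he : eps (m + 1) c = rat m c * pw m c := eps_eq_rat m hc0
  have h1 : eps (m + 1) c
      + rat m S * (pw m c * YY (m + 1) c ^ d / (1 - YY (m + 1) c ^ (d + 1)))
      ≤ 1 / lam d (YY (m + 1) c) := by
    rw [inv_lam' m hd hc0.le]
    have h2 : rat m S * (pw m c * YY (m + 1) c ^ d / (1 - YY (m + 1) c ^ (d + 1)))
        ≤ rat m c * (pw m c * YY (m + 1) c ^ d / (1 - YY (m + 1) c ^ (d + 1))) :=
      mul_le_mul_of_nonneg_right hr (by positivity)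
    have h3 : YY (m + 1) c ^ d / (1 - YY (m + 1) c ^ (d + 1))
        ≤ YY (m + 1) c ^ d / (1 - YY (m + 1) c ^ d) := by
      apply div_le_div_of_nonneg_left (by positivity) hpos1
      have : YY (m + 1) c ^ (d + 1) ≤ YY (m + 1) c ^ d :=
        pow_le_pow_of_le_one hY0 hY1.le (Nat.le_succ d)
      linarith
    have h4 : rat m c * (pw m c * YY (m + 1) c ^ d / (1 - YY (m + 1) c ^ (d + 1)))
        = eps (m + 1) c * (YY (m + 1) c ^ d / (1 - YY (m + 1) c ^ (d + 1))) := by
      rw [he]; ring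
    have h5 : eps (m + 1) c * (YY (m + 1) c ^ d / (1 - YY (m + 1) c ^ (d + 1)))
        ≤ eps (m + 1) c * (YY (m + 1) c ^ d / (1 - YY (m + 1) c ^ d)) :=
      mul_le_mul_of_nonneg_left h3 (eps_nonneg _ hc0.le)
    linarith
  have h2 : 1 / lam d (YY (m + 1) c) ≤ 1 / lam d (YY (m + 1) a) := by
    apply one_div_le_one_div_of_le
    · linarith [one_le_lam hd (YY_nonneg (m + 1) ha)]
    · exact lam_mono d (YY_nonneg _ ha) (YY_mono m ha hc.1.le)
  have h3 := h1.trans h2
  rw [hc', div_le_iff₀ (by linarith)] at h3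
  calc _ ≤ _ := h3
    _ = _ := by ring

/-- The upper potential. -/
noncomputable def WW (m l : ℕ) (μ η : ℝ) (s : ℝ) : ℝ :=
  ((m + 1 : ℕ) : ℝ) - rem (m + 1) s + μ * s + (1 + η) * KK m l s

lemma WW_prop (m : ℕ) {l : ℕ} (hl : 1 ≤ l) {s0 : ℝ} (hs0 : 0 < s0) {μ η : ℝ} (hη : 0 ≤ η)
    (hμ : μ = YY (m + 1) s0 ^ l / (1 - YY (m + 1) s0 ^ l)) (hr : rat m s0 ≤ 1 + η)
    (a b : ℝ) (ha : 0 ≤ a) (hab : a ≤ b) :
    (b - a) / lam l (YY (m + 1) b) ≤ WW m l μ η b - WW m l μ η a := by
  rcases eq_or_lt_of_le hab with h | h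
  · rw [h]; simp
  have hder : ∀ x, 0 ≤ x → HasDerivAt (WW m l μ η) (eps (m + 1) x + μ
      + (1 + η) * (pw m x * YY (m + 1) x ^ (l - 1) / (1 - YY (m + 1) x ^ l))) x := by
    intro x hx
    have h1 := (hasDerivAt_rem (m + 1) x).const_sub ((m + 1 : ℕ) : ℝ)
    have h2 := (hasDerivAt_KK m hl hx).const_mul (1 + η)
    have h3 := (hasDerivAt_id x).const_mul μ
    have h4 := (h1.add h3).add h2
    refine h4.congr_deriv ?_
    simp
  obtain ⟨c, hc, hc'⟩ := exists_hasDerivAt_eq_slope (WW m l μ η) _ h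
    (fun x hx => (hder x (ha.trans hx.1)).continuousAt.continuousWithinAt)
    (fun x hx => hder x (ha.trans hx.1.le))
  have hc0 : 0 < c := lt_of_le_of_lt ha hc.1
  have hp := pw_pos m hc0
  have hY0 := YY_nonneg (m + 1) hc0.le
  have hY1 := YY_lt_one m hc0.le
  have hpos1 := one_sub_pow_pos m hl hc0.le
  have hpos0 := one_sub_pow_pos m hl hs0.le
  have hY00 := YY_nonneg (m + 1) hs0.le
  have hμ0 : 0 ≤ μ := by rw [hμ]; positivity
  have he : eps (m + 1) c = rat m c * pw m c := eps_eq_rat m hc0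
  have he0 := eps_nonneg (m + 1) hc0.le
  have he1 := eps_le_one (m + 1) hc0.le
  have h1 : 1 / lam l (YY (m + 1) c) ≤ eps (m + 1) c + μ
      + (1 + η) * (pw m c * YY (m + 1) c ^ (l - 1) / (1 - YY (m + 1) c ^ l)) := by
    rw [inv_lam' m hl hc0.le]
    rcases le_total c s0 with hcs | hcs
    · have h2 : YY (m + 1) c ^ l / (1 - YY (m + 1) c ^ l) ≤ μ := by
        rw [hμ]
        have hm := pow_le_pow_left₀ hY0 (YY_mono m hc0.le hcs) l
        apply div_le_div₀ (by positivity) hm hpos0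
        linarith
      have h3 : eps (m + 1) c * (YY (m + 1) c ^ l / (1 - YY (m + 1) c ^ l)) ≤ 1 * μ :=
        mul_le_mul he1 h2 (by positivity) (by norm_num)
      have h4 : 0 ≤ (1 + η) * (pw m c * YY (m + 1) c ^ (l - 1) / (1 - YY (m + 1) c ^ l)) := by
        positivity
      linarith
    · have h2 : rat m c ≤ 1 + η := (rat_antitone m hs0 hcs).trans hr
      have h3 : YY (m + 1) c ^ l ≤ YY (m + 1) c ^ (l - 1) :=
        pow_le_pow_of_le_one hY0 hY1.le (Nat.sub_le l 1)
      have h4 : eps (m + 1) c * (YY (m + 1) c ^ l / (1 - YY (m + 1) c ^ l))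
          ≤ (1 + η) * (pw m c * YY (m + 1) c ^ (l - 1) / (1 - YY (m + 1) c ^ l)) := by
        rw [he]
        calc rat m c * pw m c * (YY (m + 1) c ^ l / (1 - YY (m + 1) c ^ l))
            = rat m c * (pw m c * YY (m + 1) c ^ l / (1 - YY (m + 1) c ^ l)) := by ring
          _ ≤ (1 + η) * (pw m c * YY (m + 1) c ^ l / (1 - YY (m + 1) c ^ l)) :=
            mul_le_mul_of_nonneg_right h2 (by positivity)
          _ ≤ _ := by
            apply mul_le_mul_of_nonneg_left _ (by linarith)
            apply div_le_div_of_nonneg_right _ hpos1.le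
            exact mul_le_mul_of_nonneg_left h3 hp.le
      linarith
  have h2 : 1 / lam l (YY (m + 1) b) ≤ 1 / lam l (YY (m + 1) c) := by
    apply one_div_le_one_div_of_le
    · linarith [one_le_lam hl (YY_nonneg (m + 1) hc0.le)]
    · exact lam_mono l (YY_nonneg _ hc0.le) (YY_mono m hc0.le hc.2.le)
  have h3 := h2.trans h1
  rw [hc', le_div_iff₀ (by linarith)] at h3
  calc _ = _ := by ring
    _ ≤ _ := h3

/-- For long lists the fluid matching probability of the last student exceeds `1 / 2` if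
there are at least two seats per school. -/
lemma exists_good_d (m : ℕ) (hm : 1 ≤ m) : ∀ᶠ d : ℕ in atTop, 1 ≤ d ∧ ∃ S : ℝ, 0 < S ∧
    YY (m + 1) S ^ d < 1 / 2 ∧ ((m + 1 : ℕ) : ℝ) < VV m d S S := by
  have hl2 : 0 < Real.log 2 := Real.log_pos (by norm_num)
  have h1 : ∀ᶠ s : ℝ in atTop, rat m s < 2 := (tendsto_rat m).eventually_lt_const (by norm_num)
  have h2 : ∀ᶠ s : ℝ in atTop, s ^ 2 * eps (m + 1) s < Real.log 2 / 20 :=
    (tendsto_sq_mul_eps (m + 1)).eventually_lt_const (by positivity)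
  obtain ⟨B, hB⟩ := Filter.eventually_atTop.mp ((h1.and h2).and (eventually_gt_atTop (0 : ℝ)))
  set B' := max B 0 with hB'
  have hB'0 : 0 ≤ B' := le_max_right _ _
  have heB := eps_pos m hB'0
  have h3 : ∀ᶠ d : ℕ in atTop, Real.log 2 / d < eps (m + 1) B' := by
    have : Tendsto (fun d : ℕ => Real.log 2 / (d : ℝ)) atTop (𝓝 0) :=
      tendsto_const_div_atTop_nhds_zero_nat _
    exact this.eventually_lt_const heB
  filter_upwards [h3, eventually_ge_atTop 2] with d hd1 hd2
  refine ⟨by omega, ?_⟩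
  have hdpos : (0 : ℝ) < d := by
    have : 0 < d := by omega
    exact_mod_cast this
  have hd2' : (2 : ℝ) ≤ d := by exact_mod_cast hd2
  have hlog1 : Real.log 2 < 1 := by
    have := Real.log_two_lt_d9
    linarith
  have hz0 : 0 < Real.log 2 / d := by positivity
  have hz1 : Real.log 2 / d ≤ 1 / 2 := by
    rw [div_le_div_iff₀ hdpos (by norm_num)]
    linarith
  obtain ⟨S, hS0, hS⟩ := exists_eps_eq m hz0 (by linarith)
  have hSB : B' < S := large_of_eps_small m B' hB'0 hS0 (by rw [hS]; exact hd1)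
  have hSpos : 0 < S := lt_of_le_of_lt hB'0 hSB
  obtain ⟨⟨hrat, hsq⟩, -⟩ := hB S ((le_max_left B 0).trans hSB.le)
  refine ⟨S, hSpos, ?_, ?_⟩
  · have e1 : YY (m + 1) S = 1 - Real.log 2 / d := by unfold YY; rw [hS]
    rw [e1]
    have h4 : 1 - Real.log 2 / d < Real.exp (-(Real.log 2 / d)) := by
      have := Real.add_one_lt_exp (x := -(Real.log 2 / d)) (by linarith [hz0] : -(Real.log 2 / d) ≠ 0)
      linarith
    calc (1 - Real.log 2 / d) ^ d < Real.exp (-(Real.log 2 / d)) ^ d :=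
          pow_lt_pow_left₀ h4 (by linarith) (by omega)
      _ = Real.exp (d * (-(Real.log 2 / d))) := by rw [← Real.exp_nat_mul]
      _ = Real.exp (-Real.log 2) := by congr 1; field_simp
      _ = 1 / 2 := by rw [Real.exp_neg, Real.exp_log (by norm_num)]; norm_num
  · set e := eps (m + 1) S with he
    have he0 : 0 < e := by rw [hS]; exact hz0
    have hde : d * e = Real.log 2 := by rw [hS]; field_simp
    have hehalf : e ≤ 1 / 2 := by rw [hS]; exact hz1
    set p := pw m S with hp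
    have hp0 : 0 < p := pw_pos m hSpos
    have heq : e = rat m S * p := eps_eq_rat m hSpos
    have hpe : e / 2 ≤ p := by rw [heq]; nlinarith
    have hkey := rem_mul_pw_le m hm hSpos
    rw [← he, ← hp] at hkey
    have hS2 : 0 < S ^ 2 := by positivity
    have hY0 := YY_nonneg (m + 1) hSpos.le
    -- lower bound for the logarithm
    have hYe : YY (m + 1) S = 1 - e := rfl
    have hlogY : -(e / (1 - e)) ≤ Real.log (1 - e) := by
      have := Real.one_sub_inv_le_log_of_pos (x := 1 - e) (by linarith)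
      have e2 : 1 - (1 - e)⁻¹ = -(e / (1 - e)) := by
        have : 1 - e ≠ 0 := by linarith
        field_simp
        ring
      rw [e2] at this
      exact this
    have hpow : Real.exp (-Real.log 2 - 4 * e) ≤ YY (m + 1) S ^ (d + 1) := by
      rw [hYe]
      have e3 : (1 - e) ^ (d + 1) = Real.exp ((d + 1 : ℕ) * Real.log (1 - e)) := by
        rw [Real.exp_nat_mul, Real.exp_log (by linarith)]
      rw [e3]
      apply Real.exp_le_exp.mpr
      have h5 : ((d + 1 : ℕ) : ℝ) * (-(e / (1 - e))) ≤ ((d + 1 : ℕ) : ℝ) * Real.log (1 - e) :=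
        mul_le_mul_of_nonneg_left hlogY (by positivity)
      refine le_trans ?_ h5
      have h6 : ((d + 1 : ℕ) : ℝ) * (-(e / (1 - e))) = -((Real.log 2 + e) / (1 - e)) := by
        push_cast
        rw [← hde]
        ring
      rw [h6]
      have h7 : (Real.log 2 + e) / (1 - e) ≤ Real.log 2 + 4 * e := by
        rw [div_le_iff₀ (by linarith)]
        nlinarith
      linarith
    have hexp : Real.exp (-Real.log 2 - 4 * e) = 1 / 2 * Real.exp (-(4 * e)) := by
      rw [sub_eq_add_neg, Real.exp_add, Real.exp_neg (Real.log 2), Real.exp_log (by norm_num)]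
      norm_num
    have hc' : 1 / 2 - 2 * e ≤ YY (m + 1) S ^ (d + 1) := by
      refine le_trans ?_ hpow
      rw [hexp]
      have := Real.add_one_le_exp (-(4 * e))
      linarith
    have hpos := one_sub_pow_pos m (N := d + 1) (by omega) hSpos.le
    have hlog : Real.log 2 - 4 * e ≤ -Real.log (1 - YY (m + 1) S ^ (d + 1)) := by
      have h5 : 1 - YY (m + 1) S ^ (d + 1) ≤ 1 / 2 * Real.exp (4 * e) := by
        have := Real.add_one_le_exp (4 * e)
        linarith
      have h6 := Real.log_le_log hpos h5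
      rw [Real.log_mul (by norm_num) (Real.exp_pos _).ne', Real.log_exp] at h6
      have h7 : Real.log (1 / 2) = -Real.log 2 := by
        rw [one_div, Real.log_inv]
      rw [h7] at h6
      linarith
    -- conclusion
    have hmS : (1 : ℝ) / S ^ 2 ≤ (m : ℝ) / S ^ 2 := by
      apply div_le_div_of_nonneg_right _ hS2.le
      exact_mod_cast hm
    have hmp : (1 / S ^ 2) * (e / 2) ^ 2 ≤ (m : ℝ) / S ^ 2 * p ^ 2 :=
      mul_le_mul hmS (pow_le_pow_left₀ (by linarith) hpe 2) (by positivity) (by positivity)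
    have hrem : rem (m + 1) S * p ≤ e ^ 2 - (1 / S ^ 2) * (e / 2) ^ 2 := by linarith
    have hmain : rem (m + 1) S < rat m S * KK m (d + 1) S := by
      have e5 : rat m S = e / p := by rw [heq]; field_simp
      rw [e5]
      unfold KK
      rw [div_mul_div_comm, lt_div_iff₀ (by positivity)]
      have h8 : e * (Real.log 2 - 4 * e) ≤ e * -Real.log (1 - YY (m + 1) S ^ (d + 1)) :=
        mul_le_mul_of_nonneg_left hlog he0.le
      refine lt_of_lt_of_le ?_ h8
      have h9 : rem (m + 1) S * (p * ((d + 1 : ℕ) : ℝ))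
          ≤ (e ^ 2 - (1 / S ^ 2) * (e / 2) ^ 2) * ((d + 1 : ℕ) : ℝ) := by
        rw [← mul_assoc]
        exact mul_le_mul_of_nonneg_right hrem (by positivity)
      refine lt_of_le_of_lt h9 ?_
      have h10 : (e ^ 2 - (1 / S ^ 2) * (e / 2) ^ 2) * ((d + 1 : ℕ) : ℝ)
          = e * (Real.log 2 + e) - (1 / S ^ 2) * e / 4 * (Real.log 2 + e) := by
        push_cast
        rw [← hde]
        ring
      rw [h10]
      have h11 : 5 * e < (1 / S ^ 2) / 4 * (Real.log 2 + e) := by
        have h12 : 5 * e < (1 / S ^ 2) / 4 * Real.log 2 := by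
          rw [div_div, one_div_mul_eq_div, lt_div_iff₀ (by positivity)]
          nlinarith
        have h13 : 0 ≤ (1 / S ^ 2) / 4 * e := by positivity
        linarith
      nlinarith
    unfold VV
    linarith

/-- As the lists get longer, the fluid matching probability of the last student is
asymptotically at most `1 / 2`. -/
lemma exists_good_l (m : ℕ) {c : ℝ} (hc : c < 1 / 2) : ∀ᶠ l : ℕ in atTop, 1 ≤ l ∧
    ∃ S μ η s0 : ℝ, 0 ≤ S ∧ 0 < s0 ∧ 0 ≤ η ∧ μ = YY (m + 1) s0 ^ l / (1 - YY (m + 1) s0 ^ l) ∧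
      rat m s0 ≤ 1 + η ∧ c < YY (m + 1) S ^ l ∧ WW m l μ η S < ((m + 1 : ℕ) : ℝ) := by
  set c2 : ℝ := (max c (1 / 4) + 1 / 2) / 2 with hc2
  have hc2c : c < c2 := by
    have h1 : c ≤ max c (1 / 4) := le_max_left _ _
    rw [hc2]
    rcases max_cases c (1 / 4 : ℝ) with ⟨h, -⟩ | ⟨h, -⟩ <;> rw [h] at h1 ⊢ <;> linarith
  have hc2half : c2 < 1 / 2 := by
    have : max c (1 / 4) < 1 / 2 := max_lt hc (by norm_num)
    rw [hc2]; linarith
  have hc2pos : 0 < c2 := by
    have : (1 : ℝ) / 4 ≤ max c (1 / 4) := le_max_right _ _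
    rw [hc2]; linarith
  set z := -Real.log c2 with hz
  set L := -Real.log (1 - c2) with hL
  have hz0 : 0 < z := by
    have := Real.log_neg hc2pos (by linarith)
    rw [hz]; linarith
  have hL0 : 0 < L := by
    have := Real.log_neg (x := 1 - c2) (by linarith) (by linarith)
    rw [hL]; linarith
  have hLz : L < z := by
    have := Real.log_lt_log hc2pos (by linarith : c2 < 1 - c2)
    rw [hL, hz]; linarith
  set η := (z - L) / (2 * L) with hη
  have hη0 : 0 < η := by
    have : 0 < z - L := by linarith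
    positivity
  have hηL : (1 + η) * L = (L + z) / 2 := by
    rw [hη]; field_simp; ring
  obtain ⟨s0, hs0r, hs0⟩ := (((tendsto_rat m).eventually_lt_const
    (by linarith : (1 : ℝ) < 1 + η)).and (eventually_gt_atTop (0 : ℝ))).exists
  set y := YY (m + 1) s0 with hy
  have hy0 : 0 ≤ y := YY_nonneg _ hs0.le
  have hy1 : y < 1 := YY_lt_one m hs0.le
  -- bound on `S`
  obtain ⟨B, hB⟩ := Filter.eventually_atTop.mp
    ((tendsto_mul_eps (m + 1)).eventually_lt_const (by norm_num : (0 : ℝ) < 1))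
  set B' := max B 0 with hB'
  have hB'0 : 0 ≤ B' := le_max_right _ _
  have heB := eps_pos m hB'0
  have e1 : ∀ᶠ l : ℕ in atTop, z / l < eps (m + 1) B' := by
    have : Tendsto (fun d : ℕ => z / (d : ℝ)) atTop (𝓝 0) :=
      tendsto_const_div_atTop_nhds_zero_nat _
    exact this.eventually_lt_const heB
  have e2 : ∀ᶠ l : ℕ in atTop, c < (1 - z / l) ^ l := by
    have h1 := Real.tendsto_one_add_div_pow_exp (-z)
    have h2 : Real.exp (-z) = c2 := by rw [hz, neg_neg, Real.exp_log hc2pos]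
    rw [h2] at h1
    have h3 := h1.eventually_const_lt hc2c
    filter_upwards [h3] with l hl
    have : 1 - z / l = 1 + -z / l := by ring
    rw [this]; exact hl
  have e3 : ∀ᶠ l : ℕ in atTop, (l : ℝ) ^ 2 * y ^ l < z * (z - L) / 8 := by
    have h1 := tendsto_pow_const_mul_const_pow_of_lt_one 2 hy0 hy1
    exact h1.eventually_lt_const (by
      have : 0 < z - L := by linarith
      positivity)
  have e4 : ∀ᶠ l : ℕ in atTop, y ^ l < 1 / 2 :=
    (tendsto_pow_atTop_nhds_zero_of_lt_one hy0 hy1).eventually_lt_const (by norm_num)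
  filter_upwards [e1, e2, e3, e4, eventually_ge_atTop (max 1 ⌈z⌉₊)] with l h1 h2 h3 h4 h5
  have hl1 : 1 ≤ l := (le_max_left _ _).trans h5
  have hlz : z ≤ l := by
    have : ⌈z⌉₊ ≤ l := (le_max_right _ _).trans h5
    exact Nat.ceil_le.mp this
  have hlpos : (0 : ℝ) < l := by exact_mod_cast hl1
  have hzl : z / l ≤ 1 := by rw [div_le_one hlpos]; exact hlz
  obtain ⟨S, hS0, hS⟩ := exists_eps_eq m (by positivity : 0 < z / l) hzl
  have hSB : B' < S := large_of_eps_small m B' hB'0 hS0 (by rw [hS]; exact h1)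
  have hSpos : 0 < S := lt_of_le_of_lt hB'0 hSB
  have hSe := hB S ((le_max_left B 0).trans hSB.le)
  have hY : YY (m + 1) S = 1 - z / l := by unfold YY; rw [hS]
  refine ⟨hl1, S, y ^ l / (1 - y ^ l), η, s0, hS0, hs0, hη0.le, rfl, hs0r.le, ?_, ?_⟩
  · rw [hY]; exact h2
  · unfold WW
    have hrem := eps_le_rem m hS0
    rw [hS] at hrem
    have hYle : YY (m + 1) S ^ l ≤ c2 := by
      rw [hY]
      calc (1 - z / l) ^ l ≤ Real.exp (-(z / l)) ^ l := by
            apply pow_le_pow_left₀ (by linarith)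
            have := Real.add_one_le_exp (-(z / (l : ℝ)))
            linarith
        _ = Real.exp (l * (-(z / l))) := by rw [← Real.exp_nat_mul]
        _ = Real.exp (-z) := by congr 1; field_simp
        _ = c2 := by rw [hz, neg_neg, Real.exp_log hc2pos]
    have hKK : KK m l S ≤ L / l := by
      unfold KK
      apply div_le_div_of_nonneg_right _ hlpos.le
      rw [hL]
      have := Real.log_le_log (by linarith : 0 < 1 - c2)
        (by linarith : 1 - c2 ≤ 1 - YY (m + 1) S ^ l)
      linarith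
    have hyl0 : 0 ≤ y ^ l := by positivity
    have hμ : y ^ l / (1 - y ^ l) ≤ 2 * y ^ l := by
      rw [div_le_iff₀ (by linarith)]
      nlinarith
    have hSle : S ≤ l / z := by
      rw [hS] at hSe
      rw [le_div_iff₀ hz0]
      have : S * (z / l) = S * z / l := by ring
      rw [this, div_lt_one hlpos] at hSe
      exact hSe.le
    have hμS : y ^ l / (1 - y ^ l) * S ≤ 2 * y ^ l * (l / z) :=
      mul_le_mul hμ hSle hS0 (by positivity)
    have hμS' : 2 * y ^ l * (l / z) < (z - L) / 4 / l := by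
      rw [lt_div_iff₀ hlpos]
      have e : 2 * y ^ l * (l / z) * l = 2 * ((l : ℝ) ^ 2 * y ^ l) / z := by ring
      rw [e, div_lt_iff₀ hz0]
      nlinarith
    have h6 : (1 + η) * KK m l S ≤ (1 + η) * (L / l) :=
      mul_le_mul_of_nonneg_left hKK (by linarith)
    have h7 : (1 + η) * (L / l) = (L + z) / 2 / l := by
      rw [← hηL]; ring
    have h8 : (z - L) / 4 / l + (L + z) / 2 / l < z / l := by
      rw [← add_div]
      apply div_lt_div_of_pos_right _ hlpos
      linarith
    linarith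

end Q171SD
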