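import Pool.Agent.Q171.SD.Analysis

/-!
# The last student in serial dictatorship
-/

namespace Q171SD

open Finset Filter Topology

lemma tendsto_err (q d : ℕ) : Tendsto (fun n : ℕ => (d : ℝ) ^ 2 / n
    + d * Real.sqrt (Real.exp (CC q d * q) / n)) atTop (𝓝 0) := by
  have h1 : Tendsto (fun n : ℕ => (d : ℝ) ^ 2 / n) atTop (𝓝 0) :=
    tendsto_const_div_atTop_nhds_zero_nat _
  have h2 : Tendsto (fun n : ℕ => Real.exp (CC q d * q) / (n : ℝ)) atTop (𝓝 0) :=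
    tendsto_const_div_atTop_nhds_zero_nat _
  have h3 := (Real.continuous_sqrt.tendsto 0).comp h2
  rw [Real.sqrt_zero] at h3
  have h4 := h1.add (h3.const_mul (d : ℝ))
  simpa using h4

/-- For long lists, the last student is matched with probability bounded away from `1 / 2` from
above, if there are at least two seats per school. -/
theorem last_student_gt (q : ℕ) (hq : 2 ≤ q) : ∃ d₀ : ℕ, ∀ d ≥ d₀, ∃ δ > 0, ∃ N : ℕ, ∀ n ≥ N,
    1 / 2 + δ ≤ matchProb n d q (n * q) := by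
  obtain ⟨m, rfl⟩ : ∃ m, q = m + 1 := ⟨q - 1, by omega⟩
  obtain ⟨d₀, hd₀⟩ := Filter.eventually_atTop.mp (exists_good_d m (by omega))
  refine ⟨d₀, fun d hd => ?_⟩
  obtain ⟨hd1, S, hS, hY, hV⟩ := hd₀ d hd
  refine ⟨(1 / 2 - YY (m + 1) S ^ d) / 2, by linarith, ?_⟩
  have herr := (tendsto_err (m + 1) d).eventually_lt_const
    (by linarith : 0 < (1 / 2 - YY (m + 1) S ^ d) / 2)
  obtain ⟨N, hN⟩ := Filter.eventually_atTop.mp (herr.and (eventually_ge_atTop (max d 1)))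
  refine ⟨N, fun n hn => ?_⟩
  obtain ⟨he, hnd⟩ := hN n hn
  have hdn : d ≤ n := (le_max_left _ _).trans hnd
  have hn0 : 0 < n := (le_max_right _ _).trans hnd
  have hn' : (0 : ℝ) < n := by exact_mod_cast hn0
  obtain ⟨i, hi⟩ : ∃ i, n * (m + 1) = i + 1 := ⟨n * (m + 1) - 1, by
    have : 0 < n * (m + 1) := by positivity
    omega⟩
  have hbound := abs_matchProb_sub_le (q := m + 1) (by omega) hdn hn0 (i := i) (by omega)
  rw [hi]
  have hV0 : VV m d S 0 ≤ 0 := by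
    unfold VV
    rw [rem_zero_right, KK_zero m (by omega)]
    simp
  have hup := LL_upper hd1 hn0 (VV m d S) S hS.le hV0
    (fun a b ha hab hb => VV_prop m hd1 a b ha hab hb) i
  have hin : (i : ℝ) / n ≤ ((m + 1 : ℕ) : ℝ) := by
    rw [div_le_iff₀ hn']
    have : i ≤ (m + 1) * n := by
      rw [mul_comm]; omega
    exact_mod_cast this
  have hlt : LL (m + 1) d n i < S := by
    by_contra hc
    push Not at hc
    rw [min_eq_right hc] at hup
    linarith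
  have hYle : YY (m + 1) (LL (m + 1) d n i) ^ d ≤ YY (m + 1) S ^ d :=
    pow_le_pow_left₀ (YY_nonneg _ (LL_nonneg _ _ _ _))
      (YY_mono m (LL_nonneg _ _ _ _) hlt.le) d
  have := (abs_le.mp hbound).1
  linarith

/-- As the lists get longer, the matching probability of the last student is asymptotically at
most `1 / 2`. -/
theorem last_student_le (q : ℕ) (hq : 1 ≤ q) (δ : ℝ) (hδ : 0 < δ) : ∃ ℓ₀ : ℕ, ∀ ℓ ≥ ℓ₀,
    ∃ N : ℕ, ∀ n ≥ N, matchProb n ℓ q (n * q) ≤ 1 / 2 + δ := by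
  obtain ⟨m, rfl⟩ : ∃ m, q = m + 1 := ⟨q - 1, by omega⟩
  obtain ⟨l₀, hl₀⟩ := Filter.eventually_atTop.mp
    (exists_good_l m (by linarith : 1 / 2 - δ / 2 < (1 : ℝ) / 2))
  refine ⟨l₀, fun l hl => ?_⟩
  obtain ⟨hl1, S, μ, η, s0, hS0, hs0, hη, hμ, hrat, hcY, hWS⟩ := hl₀ l hl
  have herr := (tendsto_err (m + 1) l).eventually_lt_const (by linarith : 0 < δ / 2)
  -- the time bound
  have htime : Tendsto (fun n : ℕ => (((m + 1 : ℕ) : ℝ) - 1 / n) * (1 - (l : ℝ) ^ 3 / n)) atTop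
      (𝓝 (((m + 1 : ℕ) : ℝ))) := by
    have h1 : Tendsto (fun n : ℕ => ((m + 1 : ℕ) : ℝ) - 1 / (n : ℝ)) atTop
        (𝓝 (((m + 1 : ℕ) : ℝ) - 0)) :=
      (tendsto_const_div_atTop_nhds_zero_nat 1).const_sub _
    have h2 : Tendsto (fun n : ℕ => (1 : ℝ) - (l : ℝ) ^ 3 / (n : ℝ)) atTop (𝓝 (1 - 0)) :=
      (tendsto_const_div_atTop_nhds_zero_nat _).const_sub _
    have := h1.mul h2
    simpa using this
  have htime' := htime.eventually_const_lt hWS
  obtain ⟨N, hN⟩ := Filter.eventually_atTop.mp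
    ((herr.and htime').and (eventually_ge_atTop (max l 1)))
  refine ⟨N, fun n hn => ?_⟩
  obtain ⟨⟨he, ht⟩, hnl⟩ := hN n hn
  have hln : l ≤ n := (le_max_left _ _).trans hnl
  have hn0 : 0 < n := (le_max_right _ _).trans hnl
  have hn' : (0 : ℝ) < n := by exact_mod_cast hn0
  obtain ⟨i, hi⟩ : ∃ i, n * (m + 1) = i + 1 := ⟨n * (m + 1) - 1, by
    have : 0 < n * (m + 1) := by positivity
    omega⟩
  have hbound := abs_matchProb_sub_le (q := m + 1) (by omega) hln hn0 (i := i) (by omega)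
  rw [hi]
  have hY00 := YY_nonneg (m + 1) hs0.le
  have hpos0 := one_sub_pow_pos m hl1 hs0.le
  have hW0 : 0 ≤ WW m l μ η 0 := by
    unfold WW
    rw [rem_zero_right, KK_zero m hl1]
    simp
  have hgt : S < LL (m + 1) l n i := by
    by_contra hc
    push Not at hc
    have hlow := LL_lower hl1 hn0 (WW m l μ η) S hW0
      (fun a b ha hab _ => WW_prop m hl1 hs0 hη hμ hrat a b ha hab) i hc
    have hmono := WW_prop m hl1 hs0 hη hμ hrat _ S (LL_nonneg (m + 1) l n i) hc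
    have hlam := one_le_lam hl1 (YY_nonneg (m + 1) hS0)
    have h1 : 0 ≤ (S - LL (m + 1) l n i) / lam l (YY (m + 1) S) :=
      div_nonneg (by linarith) (by linarith)
    have h2 : (i : ℝ) / n = ((m + 1 : ℕ) : ℝ) - 1 / n := by
      have : (n : ℝ) * ((m + 1 : ℕ) : ℝ) = i + 1 := by exact_mod_cast hi
      field_simp
      linarith
    rw [h2] at hlow
    linarith
  have hYge : YY (m + 1) S ^ l ≤ YY (m + 1) (LL (m + 1) l n i) ^ l :=
    pow_le_pow_left₀ (YY_nonneg _ hS0) (YY_mono m hS0 hgt.le) l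
  have := (abs_le.mp hbound).2
  linarith

/-- Longer lists hurt the last student. -/
theorem last_student (q : ℕ) (hq : 2 ≤ q) : ∃ d₀ : ℕ, ∀ d ≥ d₀, ∃ δ > 0, ∃ ℓ₀ : ℕ, ∀ ℓ ≥ ℓ₀,
    ∃ N : ℕ, ∀ n ≥ N, matchProb n ℓ q (n * q) + δ ≤ matchProb n d q (n * q) := by
  obtain ⟨d₀, hd₀⟩ := last_student_gt q hq
  refine ⟨d₀, fun d hd => ?_⟩
  obtain ⟨δ, hδ, N, hN⟩ := hd₀ d hd
  refine ⟨δ / 2, by positivity, ?_⟩
  obtain ⟨ℓ₀, hℓ₀⟩ := last_student_le q (by omega) (δ / 2) (by positivity)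
  refine ⟨ℓ₀, fun ℓ hℓ => ?_⟩
  obtain ⟨N', hN'⟩ := hℓ₀ ℓ hℓ
  refine ⟨max N N', fun n hn => ?_⟩
  have h1 := hN n ((le_max_left _ _).trans hn)
  have h2 := hN' n ((le_max_right _ _).trans hn)
  linarith

end Q171SD
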