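import Mathlib

/-!
# Poisson weights
-/

namespace Q171SD

open Finset Filter Topology

/-- Poisson weights. -/
noncomputable def pw (k : ℕ) (s : ℝ) : ℝ := Real.exp (-s) * s ^ k / k.factorial

/-- `eps q s = P(Poi(s) < q)`. -/
noncomputable def eps (q : ℕ) (s : ℝ) : ℝ := ∑ j ∈ range q, pw j s

/-- The mean number of free seats per school. -/
noncomputable def rem (q : ℕ) (s : ℝ) : ℝ := ∑ k ∈ range q, eps (k + 1) s

lemma pw_zero_right (k : ℕ) : pw k 0 = if k = 0 then 1 else 0 := by
  unfold pw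
  rcases k with _ | k <;> simp

lemma pw_nonneg (k : ℕ) {s : ℝ} (hs : 0 ≤ s) : 0 ≤ pw k s := by
  unfold pw; positivity

lemma pw_pos (k : ℕ) {s : ℝ} (hs : 0 < s) : 0 < pw k s := by
  unfold pw; positivity

lemma hasDerivAt_pw_zero (s : ℝ) : HasDerivAt (pw 0) (-pw 0 s) s := by
  have h : HasDerivAt (fun s : ℝ => Real.exp (-s)) (Real.exp (-s) * -1) s :=
    (Real.hasDerivAt_exp (-s)).comp s (hasDerivAt_neg s)
  have e : pw 0 = fun s : ℝ => Real.exp (-s) := by
    funext s; simp [pw]
  rw [e]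
  simpa using h

lemma hasDerivAt_pw_succ (k : ℕ) (s : ℝ) :
    HasDerivAt (pw (k + 1)) (pw k s - pw (k + 1) s) s := by
  have h1 : HasDerivAt (fun s : ℝ => Real.exp (-s)) (Real.exp (-s) * -1) s :=
    (Real.hasDerivAt_exp (-s)).comp s (hasDerivAt_neg s)
  have h2 : HasDerivAt (fun s : ℝ => s ^ (k + 1)) (((k + 1 : ℕ) : ℝ) * s ^ k) s := by
    simpa using hasDerivAt_pow (k + 1) s
  have h3 := (h1.mul h2).div_const ((k + 1).factorial : ℝ)
  have e : pw (k + 1) = fun s : ℝ => Real.exp (-s) * s ^ (k + 1) / ((k + 1).factorial : ℝ) := by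
    funext s; rfl
  rw [e]
  refine h3.congr_deriv ?_
  unfold pw
  have hf : ((k + 1).factorial : ℝ) = (k + 1) * k.factorial := by
    rw [Nat.factorial_succ]; push_cast; ring
  have hk : (k.factorial : ℝ) ≠ 0 := by positivity
  have hk1 : ((k : ℝ) + 1) ≠ 0 := by positivity
  rw [hf]
  push_cast
  field_simp
  ring

lemma hasDerivAt_eps (k : ℕ) (s : ℝ) : HasDerivAt (eps (k + 1)) (-pw k s) s := by
  induction k with
  | zero =>
    have e : eps (0 + 1) = pw 0 := by funext s; simp [eps]
    rw [e]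
    exact hasDerivAt_pw_zero s
  | succ k ih =>
    have e : eps (k + 1 + 1) = fun s => eps (k + 1) s + pw (k + 1) s := by
      funext s
      unfold eps
      rw [sum_range_succ]
    rw [e]
    refine (ih.add (hasDerivAt_pw_succ k s)).congr_deriv ?_
    ring

lemma hasDerivAt_rem (q : ℕ) (s : ℝ) : HasDerivAt (rem q) (-eps q s) s := by
  unfold rem eps
  have := HasDerivAt.fun_sum (u := range q) (A := fun k => eps (k + 1)) (A' := fun k => -pw k s)
    (x := s) (fun k _ => hasDerivAt_eps k s)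
  refine this.congr_deriv ?_
  rw [sum_neg_distrib]

lemma eps_zero_right (k : ℕ) : eps (k + 1) 0 = 1 := by
  unfold eps
  simp [pw_zero_right]

lemma rem_zero_right (q : ℕ) : rem q 0 = q := by
  unfold rem
  simp [eps_zero_right]

lemma eps_nonneg (q : ℕ) {s : ℝ} (hs : 0 ≤ s) : 0 ≤ eps q s :=
  sum_nonneg (fun _ _ => pw_nonneg _ hs)

lemma eps_pos (k : ℕ) {s : ℝ} (hs : 0 ≤ s) : 0 < eps (k + 1) s := by
  unfold eps
  rw [sum_range_succ']
  have h0 : 0 < pw 0 s := by unfold pw; positivity
  have h1 : 0 ≤ ∑ j ∈ range k, pw (j + 1) s := sum_nonneg (fun _ _ => pw_nonneg _ hs)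
  linarith

lemma eps_antitoneOn (k : ℕ) : AntitoneOn (eps (k + 1)) (Set.Ici 0) := by
  apply antitoneOn_of_deriv_nonpos (convex_Ici 0)
  · exact fun x _ => (hasDerivAt_eps k x).continuousAt.continuousWithinAt
  · exact fun x _ => (hasDerivAt_eps k x).differentiableAt.differentiableWithinAt
  · intro x hx
    rw [interior_Ici] at hx
    rw [(hasDerivAt_eps k x).deriv]
    have := pw_nonneg k (le_of_lt hx)
    linarith

lemma eps_le_one (q : ℕ) {s : ℝ} (hs : 0 ≤ s) : eps q s ≤ 1 := by
  rcases q with _ | k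
  · simp [eps]
  · rw [← eps_zero_right k]
    exact eps_antitoneOn k (Set.mem_Ici.mpr le_rfl) (Set.mem_Ici.mpr hs) hs

lemma pw_le_one (k : ℕ) {s : ℝ} (hs : 0 ≤ s) : pw k s ≤ 1 := by
  refine le_trans ?_ (eps_le_one (k + 1) hs)
  unfold eps
  rw [sum_range_succ]
  have : 0 ≤ ∑ j ∈ range k, pw j s := sum_nonneg (fun _ _ => pw_nonneg _ hs)
  linarith

lemma eps_le_rem (k : ℕ) {s : ℝ} (hs : 0 ≤ s) : eps (k + 1) s ≤ rem (k + 1) s := by
  unfold rem
  rw [sum_range_succ]
  have : 0 ≤ ∑ j ∈ range k, eps (j + 1) s := sum_nonneg (fun _ _ => eps_nonneg _ hs)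
  linarith

/-! ### The ratio `eps (m + 1) / pw m` -/

/-- `AA m s i = m (m - 1) ⋯ (m - i + 1) / s ^ i`. -/
noncomputable def AA (m : ℕ) (s : ℝ) (i : ℕ) : ℝ := (m.descFactorial i : ℝ) / s ^ i

lemma AA_nonneg (m : ℕ) {s : ℝ} (hs : 0 < s) (i : ℕ) : 0 ≤ AA m s i := by
  unfold AA; positivity

lemma pw_sub (m : ℕ) {s : ℝ} (hs : 0 < s) {i : ℕ} (hi : i ≤ m) :
    pw (m - i) s = pw m s * AA m s i := by
  unfold pw AA
  have h1 : s ^ m = s ^ (m - i) * s ^ i := by rw [← pow_add]; congr 1; omega
  have h2 : (m.factorial : ℝ) = (m - i).factorial * m.descFactorial i := by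
    exact_mod_cast (Nat.factorial_mul_descFactorial hi).symm
  have h3 : ((m - i).factorial : ℝ) ≠ 0 := by positivity
  have h4 : (m.descFactorial i : ℝ) ≠ 0 := by
    have := Nat.descFactorial_pos.mpr hi
    positivity
  rw [h1, h2]
  field_simp

lemma eps_eq (m : ℕ) {s : ℝ} (hs : 0 < s) :
    eps (m + 1) s = pw m s * ∑ i ∈ range (m + 1), AA m s i := by
  unfold eps
  rw [← sum_range_reflect, mul_sum]
  apply sum_congr rfl
  intro i hi
  rw [mem_range] at hi
  rw [← pw_sub m hs (by omega)]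
  congr 1

lemma rem_eq (m : ℕ) {s : ℝ} (hs : 0 < s) :
    rem (m + 1) s = pw m s * ∑ i ∈ range (m + 1), ((i : ℝ) + 1) * AA m s i := by
  have h1 : rem (m + 1) s = ∑ j ∈ range (m + 1), ((m + 1 - j : ℕ) : ℝ) * pw j s := by
    unfold rem eps
    have := Finset.sum_range_diag_flip (m + 1) (fun j _ => pw j s)
    rw [this]
    apply sum_congr rfl
    intro j _
    rw [sum_const, card_range, nsmul_eq_mul]
  rw [h1, ← sum_range_reflect, mul_sum]
  apply sum_congr rfl
  intro i hi
  rw [mem_range] at hi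
  have e1 : m + 1 - 1 - i = m - i := by omega
  rw [e1, pw_sub m hs (by omega)]
  have e2 : m + 1 - (m - i) = i + 1 := by omega
  rw [e2]
  push_cast
  ring

lemma AA_mul (m : ℕ) {s : ℝ} (hs : 0 < s) (i j : ℕ) :
    AA m s (i + j) + (if i = 1 ∧ j = 1 then (m : ℝ) / s ^ 2 else 0) ≤ AA m s i * AA m s j := by
  by_cases h : i = 1 ∧ j = 1
  · rw [if_pos h]
    obtain ⟨rfl, rfl⟩ := h
    unfold AA
    rcases m with _ | m
    · simp
    · simp only [Nat.descFactorial_succ, Nat.descFactorial_zero]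
      push_cast
      apply le_of_eq
      field_simp
  · rw [if_neg h, add_zero]
    unfold AA
    rw [div_mul_div_comm, ← pow_add]
    apply div_le_div_of_nonneg_right _ (by positivity)
    have : m.descFactorial (i + j) ≤ m.descFactorial i * m.descFactorial j := by
      have h1 : m.descFactorial (i + j) = m.descFactorial i * (m - i).descFactorial j := by
        clear h
        induction j with
        | zero => simp
        | succ j ih =>
          rw [← add_assoc, Nat.descFactorial_succ, ih, Nat.descFactorial_succ]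
          have : m - (i + j) = m - i - j := by omega
          rw [this]
          ring
      rw [h1]
      exact Nat.mul_le_mul_left _ (Nat.descFactorial_le j (Nat.sub_le m i))
    exact_mod_cast this

/-- The key inequality: strict log-concavity of the iterated tails. -/
lemma rem_mul_pw_le (m : ℕ) (hm : 1 ≤ m) {s : ℝ} (hs : 0 < s) :
    rem (m + 1) s * pw m s + (m : ℝ) / s ^ 2 * pw m s ^ 2 ≤ eps (m + 1) s ^ 2 := by
  rw [eps_eq m hs, rem_eq m hs]
  have key : ∑ i ∈ range (m + 1), ((i : ℝ) + 1) * AA m s i + (m : ℝ) / s ^ 2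
      ≤ (∑ i ∈ range (m + 1), AA m s i) ^ 2 := by
    have h1 : ∑ i ∈ range (m + 1), ((i : ℝ) + 1) * AA m s i
        = ∑ i ∈ range (m + 1), ∑ j ∈ range (m + 1 - i), AA m s (i + j) := by
      rw [← Finset.sum_range_diag_flip (m + 1) (fun i j => AA m s (i + j))]
      apply sum_congr rfl
      intro t _
      have : ∀ k ∈ range (t + 1), AA m s (k + (t - k)) = AA m s t := by
        intro k hk
        rw [mem_range] at hk
        congr 1
        omega
      rw [sum_congr rfl this, sum_const, card_range, nsmul_eq_mul]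
      push_cast
      ring
    have h2 : ∑ i ∈ range (m + 1), ∑ j ∈ range (m + 1 - i), AA m s (i + j)
        ≤ ∑ i ∈ range (m + 1), ∑ j ∈ range (m + 1), AA m s (i + j) := by
      apply sum_le_sum
      intro i _
      apply sum_le_sum_of_subset_of_nonneg
      · intro j hj
        rw [mem_range] at *
        omega
      · intro j _ _
        exact AA_nonneg m hs _
    have h3 : ∑ i ∈ range (m + 1), ∑ j ∈ range (m + 1),
        (if i = 1 ∧ j = 1 then (m : ℝ) / s ^ 2 else 0) = (m : ℝ) / s ^ 2 := by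
      have e : ∀ i ∈ range (m + 1), ∑ j ∈ range (m + 1),
          (if i = 1 ∧ j = 1 then (m : ℝ) / s ^ 2 else 0) = if i = 1 then (m : ℝ) / s ^ 2 else 0 := by
        intro i _
        by_cases hi : i = 1
        · simp [hi]; omega
        · simp [hi]
      rw [sum_congr rfl e]
      simp; omega
    rw [sq (∑ i ∈ range (m + 1), AA m s i), sum_mul_sum, h1]
    calc _ ≤ ∑ i ∈ range (m + 1), ∑ j ∈ range (m + 1), AA m s (i + j)
          + ∑ i ∈ range (m + 1), ∑ j ∈ range (m + 1),
            (if i = 1 ∧ j = 1 then (m : ℝ) / s ^ 2 else 0) := by rw [h3]; linarith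
      _ = ∑ i ∈ range (m + 1), ∑ j ∈ range (m + 1),
          (AA m s (i + j) + (if i = 1 ∧ j = 1 then (m : ℝ) / s ^ 2 else 0)) := by
          rw [← sum_add_distrib]
          apply sum_congr rfl
          intro i _
          rw [← sum_add_distrib]
      _ ≤ _ := by
          apply sum_le_sum
          intro i _
          apply sum_le_sum
          intro j _
          exact AA_mul m hs i j
  have hp := pw_pos m hs
  nlinarith [mul_le_mul_of_nonneg_left key (sq_nonneg (pw m s))]

/-- The ratio `eps (m + 1) s / pw m s`. -/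
noncomputable def rat (m : ℕ) (s : ℝ) : ℝ := ∑ i ∈ range (m + 1), AA m s i

lemma one_le_rat (m : ℕ) {s : ℝ} (hs : 0 < s) : 1 ≤ rat m s := by
  unfold rat
  rw [sum_range_succ']
  have : AA m s 0 = 1 := by simp [AA]
  rw [this]
  have : 0 ≤ ∑ j ∈ range m, AA m s (j + 1) := sum_nonneg (fun _ _ => AA_nonneg m hs _)
  linarith

lemma eps_eq_rat (m : ℕ) {s : ℝ} (hs : 0 < s) : eps (m + 1) s = rat m s * pw m s := by
  rw [eps_eq m hs, mul_comm]; rfl

lemma rat_antitone (m : ℕ) {s t : ℝ} (hs : 0 < s) (hst : s ≤ t) : rat m t ≤ rat m s := by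
  unfold rat AA
  apply sum_le_sum
  intro i _
  apply div_le_div_of_nonneg_left (by positivity) (by positivity)
  exact pow_le_pow_left₀ hs.le hst i

lemma tendsto_rat (m : ℕ) : Tendsto (rat m) atTop (𝓝 1) := by
  have h : ∀ i ∈ range (m + 1), Tendsto (fun s : ℝ => AA m s i) atTop
      (𝓝 (if i = 0 then 1 else 0)) := by
    intro i _
    by_cases hi : i = 0
    · subst hi
      simp [AA]
    · rw [if_neg hi]
      unfold AA
      have : Tendsto (fun s : ℝ => s ^ i) atTop atTop := tendsto_pow_atTop hi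
      exact Tendsto.div_atTop tendsto_const_nhds this
  have := tendsto_finsetSum _ h
  have e : rat m = fun s => ∑ i ∈ range (m + 1), AA m s i := rfl
  rw [e]
  simpa using this

lemma tendsto_sq_mul_eps (q : ℕ) : Tendsto (fun s : ℝ => s ^ 2 * eps q s) atTop (𝓝 0) := by
  have e : (fun s : ℝ => s ^ 2 * eps q s)
      = fun s : ℝ => ∑ j ∈ range q, (s ^ (j + 2) * Real.exp (-s)) * (1 / (j.factorial : ℝ)) := by
    funext s
    unfold eps pw
    rw [mul_sum]
    apply sum_congr rfl
    intro j _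
    rw [pow_add]
    ring
  rw [e]
  have h : ∀ j ∈ range q, Tendsto
      (fun s : ℝ => (s ^ (j + 2) * Real.exp (-s)) * (1 / (j.factorial : ℝ))) atTop (𝓝 0) := by
    intro j _
    have := (Real.tendsto_pow_mul_exp_neg_atTop_nhds_zero (j + 2)).mul_const
      (1 / (j.factorial : ℝ))
    simpa using this
  have := tendsto_finsetSum _ h
  simpa using this

lemma tendsto_mul_eps (q : ℕ) : Tendsto (fun s : ℝ => s * eps q s) atTop (𝓝 0) := by
  have e : (fun s : ℝ => s * eps q s)
      = fun s : ℝ => ∑ j ∈ range q, (s ^ (j + 1) * Real.exp (-s)) * (1 / (j.factorial : ℝ)) := by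
    funext s
    unfold eps pw
    rw [mul_sum]
    apply sum_congr rfl
    intro j _
    rw [pow_add]
    ring
  rw [e]
  have h : ∀ j ∈ range q, Tendsto
      (fun s : ℝ => (s ^ (j + 1) * Real.exp (-s)) * (1 / (j.factorial : ℝ))) atTop (𝓝 0) := by
    intro j _
    have := (Real.tendsto_pow_mul_exp_neg_atTop_nhds_zero (j + 1)).mul_const
      (1 / (j.factorial : ℝ))
    simpa using this
  have := tendsto_finsetSum _ h
  simpa using this

lemma tendsto_eps (q : ℕ) : Tendsto (eps q) atTop (𝓝 0) := by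
  unfold eps
  have h : ∀ j ∈ range q, Tendsto (fun s : ℝ => pw j s) atTop (𝓝 0) := by
    intro j _
    have := (Real.tendsto_pow_mul_exp_neg_atTop_nhds_zero j).mul_const (1 / (j.factorial : ℝ))
    have e : (fun s : ℝ => pw j s) = fun s => s ^ j * Real.exp (-s) * (1 / (j.factorial : ℝ)) := by
      funext s; unfold pw; ring
    rw [e]
    simpa using this
  have := tendsto_finsetSum _ h
  simpa using this

/-- For every value `0 < z ≤ 1` there is a point where `eps` takes this value. -/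
lemma exists_eps_eq (k : ℕ) {z : ℝ} (hz : 0 < z) (hz1 : z ≤ 1) :
    ∃ s : ℝ, 0 ≤ s ∧ eps (k + 1) s = z := by
  have h1 : ∀ᶠ s in atTop, eps (k + 1) s < z := (tendsto_eps (k + 1)).eventually_lt_const hz
  obtain ⟨b, hb, hb0⟩ := (h1.and (eventually_ge_atTop (0 : ℝ))).exists
  have hc : ContinuousOn (eps (k + 1)) (Set.Icc 0 b) :=
    fun x _ => (hasDerivAt_eps k x).continuousAt.continuousWithinAt
  have := intermediate_value_Icc' hb0 hc
  have hz' : z ∈ Set.Icc (eps (k + 1) b) (eps (k + 1) 0) := by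
    rw [eps_zero_right]
    exact ⟨hb.le, hz1⟩
  obtain ⟨s, hs, hs'⟩ := this hz'
  exact ⟨s, hs.1, hs'⟩

/-- Points with a small value of `eps` are large. -/
lemma large_of_eps_small (k : ℕ) (B : ℝ) (hB : 0 ≤ B) {s : ℝ} (hs : 0 ≤ s)
    (h : eps (k + 1) s < eps (k + 1) B) : B < s := by
  by_contra hc
  push Not at hc
  have := eps_antitoneOn k (Set.mem_Ici.mpr hs) (Set.mem_Ici.mpr hB) hc
  linarith

end Q171SD
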