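import Pool.Agent.Q171.SD.OneStep
import Pool.Agent.Q171.SD.Poisson

/-!
# The Euler scheme of the fluid limit
-/

namespace Q171SD

open Finset Filter Topology

lemma lam_mul (d : ℕ) (y : ℝ) : lam d y * (1 - y) = 1 - y ^ d := by
  unfold lam
  exact geom_sum_mul_neg y d

lemma lam_nonneg (d : ℕ) {y : ℝ} (hy : 0 ≤ y) : 0 ≤ lam d y :=
  sum_nonneg (fun _ _ => pow_nonneg hy _)

lemma one_le_lam {d : ℕ} (hd : 1 ≤ d) {y : ℝ} (hy : 0 ≤ y) : 1 ≤ lam d y := by
  obtain ⟨e, rfl⟩ : ∃ e, d = e + 1 := ⟨d - 1, by omega⟩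
  rw [lam_succ]
  have := mul_nonneg hy (lam_nonneg e hy)
  linarith

lemma lam_mono (d : ℕ) {y z : ℝ} (hy : 0 ≤ y) (hyz : y ≤ z) : lam d y ≤ lam d z :=
  sum_le_sum (fun _ _ => pow_le_pow_left₀ hy hyz _)

lemma lam_le (d : ℕ) {y : ℝ} (hy : 0 ≤ y) (hy1 : y ≤ 1) : lam d y ≤ d := by
  unfold lam
  calc ∑ j ∈ range d, y ^ j ≤ ∑ j ∈ range d, (1 : ℝ) := sum_le_sum (fun _ _ => pow_le_one₀ hy hy1)
    _ = d := by simp

lemma abs_pow_sub_pow_le' (j : ℕ) {y z : ℝ} (hy : 0 ≤ y) (hy1 : y ≤ 1) (hz : 0 ≤ z)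
    (hz1 : z ≤ 1) : |y ^ j - z ^ j| ≤ j * |y - z| := by
  refine (abs_pow_sub_pow_le y z j).trans ?_
  have h1 : max |y| |z| ^ (j - 1) ≤ 1 := by
    apply pow_le_one₀ (by positivity)
    rw [abs_of_nonneg hy, abs_of_nonneg hz]
    exact max_le hy1 hz1
  have h2 : 0 ≤ |y - z| * (j : ℝ) := by positivity
  calc _ ≤ |y - z| * (j : ℝ) * 1 := mul_le_mul_of_nonneg_left h1 h2
    _ = _ := by ring

lemma abs_lam_sub_le (d : ℕ) {y z : ℝ} (hy : 0 ≤ y) (hy1 : y ≤ 1) (hz : 0 ≤ z)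
    (hz1 : z ≤ 1) : |lam d y - lam d z| ≤ (d : ℝ) ^ 2 * |y - z| := by
  unfold lam
  rw [← sum_sub_distrib]
  refine (abs_sum_le_sum_abs _ _).trans ?_
  calc ∑ j ∈ range d, |y ^ j - z ^ j| ≤ ∑ j ∈ range d, (d : ℝ) * |y - z| := by
        apply sum_le_sum
        intro j hj
        rw [mem_range] at hj
        refine (abs_pow_sub_pow_le' j hy hy1 hz hz1).trans ?_
        apply mul_le_mul_of_nonneg_right _ (abs_nonneg _)
        exact_mod_cast hj.le
    _ = _ := by rw [sum_const, card_range, nsmul_eq_mul]; ring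

/-- The Poisson tail `P(Poi(s) ≥ q)`. -/
noncomputable def YY (q : ℕ) (s : ℝ) : ℝ := 1 - eps q s

lemma YY_nonneg (q : ℕ) {s : ℝ} (hs : 0 ≤ s) : 0 ≤ YY q s := by
  unfold YY; linarith [eps_le_one q hs]

lemma YY_le_one (q : ℕ) {s : ℝ} (hs : 0 ≤ s) : YY q s ≤ 1 := by
  unfold YY; linarith [eps_nonneg q hs]

lemma YY_lt_one (m : ℕ) {s : ℝ} (hs : 0 ≤ s) : YY (m + 1) s < 1 := by
  unfold YY; linarith [eps_pos m hs]

lemma YY_mono (m : ℕ) {s t : ℝ} (hs : 0 ≤ s) (hst : s ≤ t) : YY (m + 1) s ≤ YY (m + 1) t := by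
  unfold YY
  linarith [eps_antitoneOn m (Set.mem_Ici.mpr hs) (Set.mem_Ici.mpr (hs.trans hst)) hst]

lemma hasDerivAt_YY (m : ℕ) (s : ℝ) : HasDerivAt (YY (m + 1)) (pw m s) s := by
  have := (hasDerivAt_eps m s).const_sub 1
  rw [neg_neg] at this
  exact this

lemma YY_lip (m : ℕ) {s t : ℝ} (hs : 0 ≤ s) (hst : s ≤ t) :
    YY (m + 1) t - YY (m + 1) s ≤ t - s := by
  rcases eq_or_lt_of_le hst with h | h
  · rw [h]; simp
  obtain ⟨c, hc, hc'⟩ := exists_hasDerivAt_eq_slope (YY (m + 1)) (pw m) h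
    (fun x _ => (hasDerivAt_YY m x).continuousAt.continuousWithinAt)
    (fun x _ => hasDerivAt_YY m x)
  have h1 : pw m c ≤ 1 := pw_le_one m (hs.trans hc.1.le)
  rw [hc', div_le_one (by linarith)] at h1
  exact h1

/-- The Euler scheme. -/
noncomputable def LL (q d n : ℕ) : ℕ → ℝ
  | 0 => 0
  | i + 1 => LL q d n i + lam d (YY q (LL q d n i)) / n

lemma LL_nonneg (q d n i : ℕ) : 0 ≤ LL q d n i := by
  induction i with
  | zero => simp [LL]
  | succ i ih =>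
    unfold LL
    have := lam_nonneg d (YY_nonneg q ih)
    positivity

lemma LL_le_succ (q d n i : ℕ) : LL q d n i ≤ LL q d n (i + 1) := by
  rw [show LL q d n (i + 1) = LL q d n i + lam d (YY q (LL q d n i)) / n from rfl]
  have := lam_nonneg d (YY_nonneg q (LL_nonneg q d n i))
  have : 0 ≤ lam d (YY q (LL q d n i)) / n := by positivity
  linarith

/-- Upper bounds for the Euler scheme. -/
lemma LL_upper {m d n : ℕ} (hd : 1 ≤ d) (hn : 0 < n) (V : ℝ → ℝ) (S : ℝ) (hS : 0 ≤ S)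
    (hV0 : V 0 ≤ 0)
    (hV : ∀ a b, 0 ≤ a → a ≤ b → b ≤ S → V b - V a ≤ (b - a) / lam d (YY (m + 1) a)) (i : ℕ) :
    V (min (LL (m + 1) d n i) S) ≤ i / n := by
  have hn' : (0 : ℝ) < n := by exact_mod_cast hn
  induction i with
  | zero => simpa [LL, hS] using hV0
  | succ i ih =>
    set a := LL (m + 1) d n i with ha
    have ha0 : 0 ≤ a := LL_nonneg _ _ _ _
    have hlam : 1 ≤ lam d (YY (m + 1) a) := one_le_lam hd (YY_nonneg _ ha0)
    have hb : LL (m + 1) d n (i + 1) = a + lam d (YY (m + 1) a) / n := rfl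
    have hab : a ≤ LL (m + 1) d n (i + 1) := LL_le_succ _ _ _ _
    rcases le_total a S with h | h
    · have h1 := hV a (min (LL (m + 1) d n (i + 1)) S) ha0 (le_min hab h) (min_le_right _ _)
      rw [min_eq_left h] at ih
      have h2 : (min (LL (m + 1) d n (i + 1)) S - a) / lam d (YY (m + 1) a) ≤ 1 / n := by
        rw [div_le_iff₀ (by linarith)]
        have : min (LL (m + 1) d n (i + 1)) S ≤ LL (m + 1) d n (i + 1) := min_le_left _ _
        rw [hb] at this ⊢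
        have e : 1 / (n : ℝ) * lam d (YY (m + 1) a) = lam d (YY (m + 1) a) / n := by ring
        rw [e]
        linarith
      push_cast
      rw [add_div]
      linarith
    · rw [min_eq_right (h.trans hab)]
      rw [min_eq_right h] at ih
      refine ih.trans ?_
      apply div_le_div_of_nonneg_right _ hn'.le
      push_cast; linarith

/-- Lower bounds for the Euler scheme. -/
lemma LL_lower {m l n : ℕ} (hl : 1 ≤ l) (hn : 0 < n) (W : ℝ → ℝ) (S : ℝ)
    (hW0 : 0 ≤ W 0)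
    (hW : ∀ a b, 0 ≤ a → a ≤ b → b ≤ S → (b - a) / lam l (YY (m + 1) b) ≤ W b - W a) (i : ℕ)
    (hi : LL (m + 1) l n i ≤ S) :
    (i : ℝ) / n * (1 - (l : ℝ) ^ 3 / n) ≤ W (LL (m + 1) l n i) := by
  have hn' : (0 : ℝ) < n := by exact_mod_cast hn
  induction i with
  | zero => simpa [LL] using hW0
  | succ i ih =>
    have hab : LL (m + 1) l n i ≤ LL (m + 1) l n (i + 1) := LL_le_succ _ _ _ _
    have ih' := ih (hab.trans hi)
    have ha0 : 0 ≤ LL (m + 1) l n i := LL_nonneg _ _ _ _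
    have h1 := hW (LL (m + 1) l n i) (LL (m + 1) l n (i + 1)) ha0 hab hi
    have hb : LL (m + 1) l n (i + 1)
      = LL (m + 1) l n i + lam l (YY (m + 1) (LL (m + 1) l n i)) / n := rfl
    set a := LL (m + 1) l n i with ha
    set b := LL (m + 1) l n (i + 1) with hb'
    have hb0 : 0 ≤ b := ha0.trans hab
    have hla : 1 ≤ lam l (YY (m + 1) a) := one_le_lam hl (YY_nonneg _ ha0)
    have hlb : 1 ≤ lam l (YY (m + 1) b) := one_le_lam hl (YY_nonneg _ hb0)
    have hla' : lam l (YY (m + 1) a) ≤ l := lam_le l (YY_nonneg _ ha0) (YY_le_one _ ha0)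
    have h2 : lam l (YY (m + 1) b) ≤ lam l (YY (m + 1) a) + (l : ℝ) ^ 3 / n := by
      have h3 := abs_lam_sub_le l (YY_nonneg (m + 1) hb0) (YY_le_one _ hb0) (YY_nonneg (m + 1) ha0)
        (YY_le_one _ ha0)
      have h4 : |YY (m + 1) b - YY (m + 1) a| ≤ l / n := by
        rw [abs_of_nonneg (by linarith [YY_mono m ha0 hab])]
        refine (YY_lip m ha0 hab).trans ?_
        rw [hb, add_sub_cancel_left]
        exact div_le_div_of_nonneg_right hla' hn'.le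
      have h5 := (abs_le.mp h3).2
      have h6 : (l : ℝ) ^ 2 * |YY (m + 1) b - YY (m + 1) a| ≤ (l : ℝ) ^ 2 * (l / n) :=
        mul_le_mul_of_nonneg_left h4 (by positivity)
      have e : (l : ℝ) ^ 2 * (l / n) = (l : ℝ) ^ 3 / n := by ring
      linarith
    have h3 : 1 / (n : ℝ) * (1 - (l : ℝ) ^ 3 / n) ≤ (b - a) / lam l (YY (m + 1) b) := by
      rw [le_div_iff₀ (by linarith), hb, add_sub_cancel_left]
      have e : 1 / (n : ℝ) * (1 - (l : ℝ) ^ 3 / n) * lam l (YY (m + 1) b)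
        = (lam l (YY (m + 1) b) - (l : ℝ) ^ 3 / n * lam l (YY (m + 1) b)) / n := by ring
      have hb'' : a + lam l (YY (m + 1) a) / n = b := hb.symm
      rw [hb'', e]
      apply div_le_div_of_nonneg_right _ hn'.le
      have : (l : ℝ) ^ 3 / n ≤ (l : ℝ) ^ 3 / n * lam l (YY (m + 1) b) :=
        le_mul_of_one_le_right (by positivity) hlb
      linarith
    push_cast
    have e : ((i : ℝ) + 1) / n * (1 - (l : ℝ) ^ 3 / n)
      = (i : ℝ) / n * (1 - (l : ℝ) ^ 3 / n) + 1 / (n : ℝ) * (1 - (l : ℝ) ^ 3 / n) := by ring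
    rw [e]
    linarith

/-- The antiderivative `-log (1 - Y ^ N) / N`. -/
noncomputable def KK (m N : ℕ) (s : ℝ) : ℝ := -Real.log (1 - YY (m + 1) s ^ N) / N

lemma one_sub_pow_pos (m : ℕ) {N : ℕ} (hN : 1 ≤ N) {s : ℝ} (hs : 0 ≤ s) :
    0 < 1 - YY (m + 1) s ^ N := by
  have := pow_lt_one₀ (YY_nonneg (m + 1) hs) (YY_lt_one m hs) (by omega : N ≠ 0)
  linarith

lemma KK_zero (m : ℕ) {N : ℕ} (hN : 1 ≤ N) : KK m N 0 = 0 := by
  unfold KK YY
  rw [eps_zero_right]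
  simp [show N ≠ 0 by omega]

lemma hasDerivAt_KK (m : ℕ) {N : ℕ} (hN : 1 ≤ N) {s : ℝ} (hs : 0 ≤ s) :
    HasDerivAt (KK m N) (pw m s * YY (m + 1) s ^ (N - 1) / (1 - YY (m + 1) s ^ N)) s := by
  have h0 := one_sub_pow_pos m hN hs
  have h1 := ((hasDerivAt_YY m s).pow N).const_sub 1
  have h2 := (h1.log h0.ne').neg.div_const (N : ℝ)
  have hN' : (N : ℝ) ≠ 0 := by
    have : N ≠ 0 := by omega
    exact_mod_cast this
  have h3 : HasDerivAt (KK m N)
      (-(-(N * YY (m + 1) s ^ (N - 1) * pw m s) / (1 - YY (m + 1) s ^ N)) / N) s := h2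
  refine h3.congr_deriv ?_
  field_simp

end Q171SD
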