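import Pool.Agent.Q171.SD.Mean
import Pool.Agent.Q171.SD.Fluid

/-!
# The law of large numbers for the occupancy levels
-/

namespace Q171SD

open Finset Filter Topology

lemma pw_eq_sub (k : ℕ) (s : ℝ) : pw k s = YY k s - YY (k + 1) s := by
  unfold YY eps
  rw [sum_range_succ]
  ring

lemma YY_zero_left (s : ℝ) : YY 0 s = 1 := by simp [YY, eps]

lemma pw_lip (k : ℕ) {s t : ℝ} (hs : 0 ≤ s) (hst : s ≤ t) : |pw k t - pw k s| ≤ t - s := by
  rcases eq_or_lt_of_le hst with h | h
  · rw [h]; simp
  have key : ∀ (f' : ℝ → ℝ), (∀ x, HasDerivAt (pw k) (f' x) x) → (∀ x, 0 ≤ x → |f' x| ≤ 1) →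
      |pw k t - pw k s| ≤ t - s := by
    intro f' hf' hb
    obtain ⟨c, hc, hc'⟩ := exists_hasDerivAt_eq_slope (pw k) f' h
      (fun x _ => (hf' x).continuousAt.continuousWithinAt) (fun x _ => hf' x)
    have h1 := hb c (hs.trans hc.1.le)
    rw [hc', abs_div, abs_of_pos (by linarith : 0 < t - s), div_le_one (by linarith)] at h1
    exact h1
  rcases k with _ | k
  · apply key _ (fun x => hasDerivAt_pw_zero x)
    intro x hx
    rw [abs_neg, abs_of_nonneg (pw_nonneg _ hx)]
    exact pw_le_one _ hx
  · apply key _ (fun x => hasDerivAt_pw_succ k x)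
    intro x hx
    have h1 := pw_nonneg k hx
    have h2 := pw_nonneg (k + 1) hx
    have h3 := pw_le_one k hx
    have h4 := pw_le_one (k + 1) hx
    rw [abs_le]
    constructor <;> linarith

open Classical in
/-- The probability that the next student takes a seat at a school with `k` taken seats. -/
lemma abs_avg_hit_sub_le {q d n : ℕ} (h : d ≤ n) (hn : 0 < n) (s : Fin n → ℕ) {k : ℕ}
    (hk : k < q) :
    |avg d n (fun L => if Hit q L s k then (1 : ℝ) else 0)
      - (lev s k - lev s (k + 1)) * lam d (lev s q)| ≤ (d : ℝ) ^ 2 / n := by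
  have hn' : (n : ℝ) ≠ 0 := by positivity
  have := abs_avg_sub_le h hn (fun f => if Hit q f s k then (1 : ℝ) else 0)
    (fun f => by split_ifs <;> norm_num) (fun f => by split_ifs <;> norm_num)
  rw [sum_hit q d n s k hk] at this
  have e : (n : ℝ) ^ d * ((lev s k - lev s (k + 1)) * lam d (lev s q)) / (n : ℝ) ^ d
      = (lev s k - lev s (k + 1)) * lam d (lev s q) := by
    field_simp
  rw [e] at this
  exact this

open Classical in
/-- The probability that the next student stays unmatched. -/
lemma abs_avg_none_sub_le {q d n : ℕ} (h : d ≤ n) (hn : 0 < n) (s : Fin n → ℕ) :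
    |avg d n (fun L => if choice q L s = none then (1 : ℝ) else 0)
      - lev s q ^ d| ≤ (d : ℝ) ^ 2 / n := by
  have hn' : (n : ℝ) ≠ 0 := by positivity
  have := abs_avg_sub_le h hn (fun f => if choice q f s = none then (1 : ℝ) else 0)
    (fun f => by split_ifs <;> norm_num) (fun f => by split_ifs <;> norm_num)
  rw [sum_none q d n s] at this
  have e : ((univ.filter (fun v => q ≤ s v)).card : ℝ) ^ d / (n : ℝ) ^ d = lev s q ^ d := by
    unfold lev
    rw [div_pow]
  rw [e] at this
  exact this

/-- The constant of the Gronwall argument. -/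
noncomputable def CC (q d : ℕ) : ℝ := q * (2 * ((d : ℝ) ^ 2 + 2 * d) + 4 * (d : ℝ) ^ 2 + (1 + d) ^ 2)

lemma CC_nonneg (q d : ℕ) : 0 ≤ CC q d := by unfold CC; positivity

/-- The squared distance from a state to the fluid limit. -/
noncomputable def dist2 (q : ℕ) {n : ℕ} (s : Fin n → ℕ) (t : ℝ) : ℝ :=
  ∑ k ∈ range q, (lev s (k + 1) - YY (k + 1) t) ^ 2

lemma dist2_nonneg (q : ℕ) {n : ℕ} (s : Fin n → ℕ) (t : ℝ) : 0 ≤ dist2 q s t :=
  sum_nonneg (fun _ _ => sq_nonneg _)

/-- The one-step inequality. -/
lemma avg_dist2_step {q d n : ℕ} (hq : 1 ≤ q) (h : d ≤ n) (hn : 0 < n) (s : Fin n → ℕ) {t : ℝ}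
    (ht : 0 ≤ t) :
    avg d n (fun L => dist2 q (step q L s) (t + lam d (YY q t) / n))
      ≤ (1 + CC q d / n) * dist2 q s t + CC q d / (n : ℝ) ^ 2 := by
  classical
  have hn' : (0 : ℝ) < n := by exact_mod_cast hn
  set t' := t + lam d (YY q t) / n with ht'
  have hlam0 : 0 ≤ lam d (YY q t) := lam_nonneg d (YY_nonneg q ht)
  have hlamd : lam d (YY q t) ≤ d := lam_le d (YY_nonneg q ht) (YY_le_one q ht)
  have htt' : t ≤ t' := by
    rw [ht']
    have : 0 ≤ lam d (YY q t) / n := by positivity
    linarith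
  have hdiff : t' - t = lam d (YY q t) / n := by rw [ht']; ring
  have hdiff' : t' - t ≤ d / n := by
    rw [hdiff]; exact div_le_div_of_nonneg_right hlamd hn'.le
  set a : ℕ → ℝ := fun k => lev s (k + 1) - YY (k + 1) t with ha
  set β : ℕ → ℝ := fun k => n * (YY (k + 1) t' - YY (k + 1) t) with hβ
  set θ : ℕ → (Fin d ↪ Fin n) → ℝ := fun k L => if Hit q L s k then (1 : ℝ) else 0 with hθ
  set A : ℝ := ∑ j ∈ range q, |a j| with hA
  have hA0 : 0 ≤ A := sum_nonneg (fun _ _ => abs_nonneg _)
  have ha1 : ∀ k, |a k| ≤ 1 := by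
    intro k
    rw [ha, abs_le]
    have h1 := lev_nonneg s (k + 1)
    have h2 := lev_le_one s (k + 1)
    have h3 := YY_nonneg (k + 1) ht
    have h4 := YY_le_one (k + 1) ht
    constructor <;> simp only <;> linarith
  have haA : ∀ k, k < q → |a k| ≤ A := by
    intro k hk
    exact single_le_sum (f := fun j => |a j|) (fun _ _ => abs_nonneg _) (mem_range.mpr hk)
  have hA2 : A ^ 2 ≤ q * dist2 q s t := by
    have := sq_sum_le_card_mul_sum_sq (s := range q) (f := fun j => |a j|)
    rw [card_range] at this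
    simp only [sq_abs] at this
    exact this
  have hAq : A ≤ q := by
    calc A ≤ ∑ j ∈ range q, (1 : ℝ) := sum_le_sum (fun k _ => ha1 k)
      _ = q := by simp
  -- the drift of the limit
  have hβ0 : ∀ k, 0 ≤ β k := by
    intro k
    have := YY_mono k ht htt'
    exact mul_nonneg hn'.le (by linarith)
  have hβd : ∀ k, β k ≤ d := by
    intro k
    have h1 := YY_lip k ht htt'
    have h2 : YY (k + 1) t' - YY (k + 1) t ≤ d / n := h1.trans hdiff'
    have h3 : n * (YY (k + 1) t' - YY (k + 1) t) ≤ n * (d / n) :=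
      mul_le_mul_of_nonneg_left h2 hn'.le
    have e : (n : ℝ) * (d / n) = d := by field_simp
    rw [e] at h3
    exact h3
  have hβ' : ∀ k, |β k - lam d (YY q t) * pw k t| ≤ (d : ℝ) ^ 2 / n := by
    intro k
    rcases eq_or_lt_of_le htt' with he | hlt
    · have h0 : lam d (YY q t) = 0 := by
        have : lam d (YY q t) / n = 0 := by linarith
        rcases div_eq_zero_iff.mp this with h | h
        · exact h
        · exact absurd h hn'.ne'
      have : β k = 0 := by simp [hβ, ← he]
      rw [this, h0]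
      simp only [zero_mul, sub_zero, abs_zero]
      positivity
    · obtain ⟨c, hc, hc'⟩ := exists_hasDerivAt_eq_slope (YY (k + 1)) (pw k) hlt
        (fun x _ => (hasDerivAt_YY k x).continuousAt.continuousWithinAt)
        (fun x _ => hasDerivAt_YY k x)
      have e1 : YY (k + 1) t' - YY (k + 1) t = pw k c * (t' - t) := by
        rw [hc']
        have : t' - t ≠ 0 := by linarith
        field_simp
      have e2 : β k = lam d (YY q t) * pw k c := by
        simp only [hβ]
        rw [e1, hdiff]
        field_simp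
      rw [e2, ← mul_sub, abs_mul, abs_of_nonneg hlam0]
      have h1 := pw_lip k ht hc.1.le
      have h2 : |pw k c - pw k t| ≤ d / n := by
        have := hc.2
        linarith
      calc lam d (YY q t) * |pw k c - pw k t| ≤ d * (d / n) :=
            mul_le_mul hlamd h2 (abs_nonneg _) (by positivity)
        _ = (d : ℝ) ^ 2 / n := by ring
  -- the difference of the drifts
  have hlev0 : |lev s 0 - YY 0 t| = 0 := by
    rw [lev_zero hn, YY_zero_left]; simp
  have hprev : ∀ k, k < q → |lev s k - YY k t| ≤ A := by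
    intro k hk
    rcases k with _ | k
    · rw [hlev0]; exact hA0
    · exact haA k (by omega)
  have hq1 : |lev s q - YY q t| ≤ A := by
    obtain ⟨r, rfl⟩ : ∃ r, q = r + 1 := ⟨q - 1, by omega⟩
    exact haA r (by omega)
  have hdrift : ∀ k, k < q →
      |(lev s k - lev s (k + 1)) * lam d (lev s q) - lam d (YY q t) * pw k t|
        ≤ ((d : ℝ) ^ 2 + 2 * d) * A := by
    intro k hk
    rw [pw_eq_sub]
    have e : (lev s k - lev s (k + 1)) * lam d (lev s q)
        - lam d (YY q t) * (YY k t - YY (k + 1) t)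
        = (lev s k - lev s (k + 1)) * (lam d (lev s q) - lam d (YY q t))
          + lam d (YY q t) * ((lev s k - YY k t) - (lev s (k + 1) - YY (k + 1) t)) := by ring
    rw [e]
    refine (abs_add_le _ _).trans ?_
    rw [abs_mul, abs_mul, abs_of_nonneg hlam0]
    have h1 : |lev s k - lev s (k + 1)| ≤ 1 := by
      have h1 := lev_nonneg s (k + 1)
      have h2 := lev_le_one s (k + 1)
      have h3 := lev_nonneg s k
      have h4 := lev_le_one s k
      rw [abs_le]; constructor <;> linarith
    have h2 : |lam d (lev s q) - lam d (YY q t)| ≤ (d : ℝ) ^ 2 * A := by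
      refine (abs_lam_sub_le d (lev_nonneg s q) (lev_le_one s q) (YY_nonneg q ht)
        (YY_le_one q ht)).trans ?_
      exact mul_le_mul_of_nonneg_left hq1 (by positivity)
    have h3 : |(lev s k - YY k t) - (lev s (k + 1) - YY (k + 1) t)| ≤ 2 * A := by
      refine (abs_sub _ _).trans ?_
      have := hprev k hk
      have := haA k hk
      simp only [ha] at this
      linarith
    have h4 : |lev s k - lev s (k + 1)| * |lam d (lev s q) - lam d (YY q t)|
        ≤ 1 * ((d : ℝ) ^ 2 * A) := mul_le_mul h1 h2 (abs_nonneg _) (by norm_num)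
    have h5 : lam d (YY q t) * |(lev s k - YY k t) - (lev s (k + 1) - YY (k + 1) t)|
        ≤ d * (2 * A) := mul_le_mul hlamd h3 (abs_nonneg _) (by positivity)
    linarith
  have hh : ∀ k, k < q → |avg d n (θ k) - β k| ≤ ((d : ℝ) ^ 2 + 2 * d) * A + 2 * (d : ℝ) ^ 2 / n := by
    intro k hk
    have h1 := abs_avg_hit_sub_le h hn s hk
    have h2 := hdrift k hk
    have h3 := hβ' k
    have e : avg d n (θ k) - β k
        = (avg d n (θ k) - (lev s k - lev s (k + 1)) * lam d (lev s q))
        + ((lev s k - lev s (k + 1)) * lam d (lev s q) - lam d (YY q t) * pw k t)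
        - (β k - lam d (YY q t) * pw k t) := by ring
    rw [e]
    refine (abs_sub _ _).trans ?_
    have h4 := abs_add_le (avg d n (θ k) - (lev s k - lev s (k + 1)) * lam d (lev s q))
      ((lev s k - lev s (k + 1)) * lam d (lev s q) - lam d (YY q t) * pw k t)
    have e2 : 2 * (d : ℝ) ^ 2 / n = (d : ℝ) ^ 2 / n + (d : ℝ) ^ 2 / n := by ring
    rw [e2]
    linarith
  -- expansion of the square
  have hexp : ∀ k, avg d n (fun L => (lev (step q L s) (k + 1) - YY (k + 1) t') ^ 2)
      ≤ a k ^ 2 + 2 / n * (a k * (avg d n (θ k) - β k)) + (1 + (d : ℝ)) ^ 2 / (n : ℝ) ^ 2 := by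
    intro k
    have e : ∀ L : Fin d ↪ Fin n, (lev (step q L s) (k + 1) - YY (k + 1) t') ^ 2
        = (a k ^ 2 - 2 / n * (a k * β k)) + ((2 / n * a k) * θ k L)
          + (θ k L - β k) ^ 2 / (n : ℝ) ^ 2 := by
      intro L
      have e1 : lev (step q L s) (k + 1) - YY (k + 1) t' = a k + (θ k L - β k) / n := by
        rw [lev_step]
        simp only [ha, hβ, hθ]
        field_simp
        ring
      rw [e1]
      field_simp
      ring
    have hθ01 : ∀ L, 0 ≤ θ k L ∧ θ k L ≤ 1 := by
      intro L
      simp only [hθ]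
      split_ifs <;> norm_num
    calc avg d n (fun L => (lev (step q L s) (k + 1) - YY (k + 1) t') ^ 2)
        = avg d n (fun L => (a k ^ 2 - 2 / n * (a k * β k)) + ((2 / n * a k) * θ k L)
          + (θ k L - β k) ^ 2 / (n : ℝ) ^ 2) := by
          congr 1
          funext L
          exact e L
      _ ≤ avg d n (fun L => ((a k ^ 2 - 2 / n * (a k * β k)) + (1 + (d : ℝ)) ^ 2 / (n : ℝ) ^ 2)
          + (2 / n * a k) * θ k L) := by
          apply avg_mono
          intro L
          have h1 : (θ k L - β k) ^ 2 / (n : ℝ) ^ 2 ≤ (1 + (d : ℝ)) ^ 2 / (n : ℝ) ^ 2 := by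
            apply div_le_div_of_nonneg_right _ (by positivity)
            have h1 := (hθ01 L).1
            have h2 := (hθ01 L).2
            have h3 := hβ0 k
            have h4 := hβd k
            rw [sq_le_sq, abs_of_nonneg (by positivity : 0 ≤ 1 + (d : ℝ)), abs_le]
            constructor <;> linarith
          linarith
      _ = _ := by
          rw [avg_add, avg_const h, avg_mul_left]
          ring
  calc avg d n (fun L => dist2 q (step q L s) t')
      = ∑ k ∈ range q, avg d n (fun L => (lev (step q L s) (k + 1) - YY (k + 1) t') ^ 2) := by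
        unfold dist2
        exact avg_sum d n (range q) (fun k L => (lev (step q L s) (k + 1) - YY (k + 1) t') ^ 2)
    _ ≤ ∑ k ∈ range q, (a k ^ 2 + 2 / n * (|a k| * (((d : ℝ) ^ 2 + 2 * d) * A
          + 2 * (d : ℝ) ^ 2 / n)) + (1 + (d : ℝ)) ^ 2 / (n : ℝ) ^ 2) := by
        apply sum_le_sum
        intro k hk
        rw [mem_range] at hk
        refine (hexp k).trans ?_
        have h1 : a k * (avg d n (θ k) - β k) ≤ |a k| * (((d : ℝ) ^ 2 + 2 * d) * A
          + 2 * (d : ℝ) ^ 2 / n) := by
          refine (le_abs_self _).trans ?_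
          rw [abs_mul]
          exact mul_le_mul_of_nonneg_left (hh k hk) (abs_nonneg _)
        have h2 : 2 / (n : ℝ) * (a k * (avg d n (θ k) - β k))
            ≤ 2 / n * (|a k| * (((d : ℝ) ^ 2 + 2 * d) * A + 2 * (d : ℝ) ^ 2 / n)) :=
          mul_le_mul_of_nonneg_left h1 (by positivity)
        linarith
    _ = dist2 q s t + 2 / n * (A * (((d : ℝ) ^ 2 + 2 * d) * A + 2 * (d : ℝ) ^ 2 / n))
          + q * ((1 + (d : ℝ)) ^ 2 / (n : ℝ) ^ 2) := by
        rw [sum_add_distrib, sum_add_distrib, ← mul_sum, ← sum_mul, sum_const, card_range,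
          nsmul_eq_mul]
        rfl
    _ ≤ _ := by
        have hD := dist2_nonneg q s t
        have e1 : 2 / (n : ℝ) * (A * (((d : ℝ) ^ 2 + 2 * d) * A + 2 * (d : ℝ) ^ 2 / n))
            = 2 * ((d : ℝ) ^ 2 + 2 * d) / n * A ^ 2 + 4 * (d : ℝ) ^ 2 / (n : ℝ) ^ 2 * A := by
          field_simp
          ring
        have h1 : 2 * ((d : ℝ) ^ 2 + 2 * d) / n * A ^ 2
            ≤ 2 * ((d : ℝ) ^ 2 + 2 * d) / n * (q * dist2 q s t) :=
          mul_le_mul_of_nonneg_left hA2 (by positivity)
        have h2 : 4 * (d : ℝ) ^ 2 / (n : ℝ) ^ 2 * A ≤ 4 * (d : ℝ) ^ 2 / (n : ℝ) ^ 2 * q :=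
          mul_le_mul_of_nonneg_left hAq (by positivity)
        have h3 : (1 + CC q d / n) * dist2 q s t + CC q d / (n : ℝ) ^ 2
            = (dist2 q s t + 2 * ((d : ℝ) ^ 2 + 2 * d) / n * (q * dist2 q s t)
              + 4 * (d : ℝ) ^ 2 / (n : ℝ) ^ 2 * q + q * ((1 + (d : ℝ)) ^ 2 / (n : ℝ) ^ 2))
              + (q * (4 * (d : ℝ) ^ 2 + (1 + d) ^ 2) / n * dist2 q s t
                + q * (2 * ((d : ℝ) ^ 2 + 2 * d)) / (n : ℝ) ^ 2) := by
          unfold CC
          field_simp
          ring
        have h4 : 0 ≤ q * (4 * (d : ℝ) ^ 2 + (1 + d) ^ 2) / n * dist2 q s t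
                + q * (2 * ((d : ℝ) ^ 2 + 2 * d)) / (n : ℝ) ^ 2 := by positivity
        rw [h3, e1]
        linarith

/-- The law of large numbers. -/
lemma mean_dist2_le {q d n : ℕ} (hq : 1 ≤ q) (h : d ≤ n) (hn : 0 < n) (i : ℕ) :
    mean q d n i (fun s => dist2 q s (LL q d n i)) + 1 / n ≤ (1 + CC q d / n) ^ i * (1 / n) := by
  have hn' : (0 : ℝ) < n := by exact_mod_cast hn
  have hC := CC_nonneg q d
  induction i with
  | zero =>
    rw [mean_zero]
    have : dist2 q (fun _ : Fin n => 0) (LL q d n 0) = 0 := by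
      unfold dist2
      apply sum_eq_zero
      intro k _
      have h1 : lev (fun _ : Fin n => 0) (k + 1) = 0 := by
        unfold lev
        simp
      have h2 : YY (k + 1) (LL q d n 0) = 0 := by
        show YY (k + 1) 0 = 0
        unfold YY
        rw [eps_zero_right]; simp
      rw [h1, h2]; simp
    rw [this]
    simp
  | succ i ih =>
    rw [mean_succ]
    have h1 : mean q d n i (fun s => avg d n (fun L => dist2 q (step q L s) (LL q d n (i + 1))))
        ≤ mean q d n i (fun s => (1 + CC q d / n) * dist2 q s (LL q d n i)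
          + CC q d / (n : ℝ) ^ 2) := by
      apply mean_mono
      intro s
      exact avg_dist2_step hq h hn s (LL_nonneg q d n i)
    rw [mean_add q d n i (fun s => (1 + CC q d / n) * dist2 q s (LL q d n i))
      (fun _ => CC q d / (n : ℝ) ^ 2), mean_mul_left, mean_const h] at h1
    have h2 : (1 + CC q d / n) * (mean q d n i (fun s => dist2 q s (LL q d n i)) + 1 / n)
        ≤ (1 + CC q d / n) * ((1 + CC q d / n) ^ i * (1 / n)) :=
      mul_le_mul_of_nonneg_left ih (by positivity)
    have e1 : (1 + CC q d / n) * (mean q d n i (fun s => dist2 q s (LL q d n i)) + 1 / n)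
        = (1 + CC q d / n) * mean q d n i (fun s => dist2 q s (LL q d n i))
          + CC q d / (n : ℝ) ^ 2 + 1 / n := by
      field_simp
      ring
    rw [e1] at h2
    have e2 : (1 + CC q d / n) * ((1 + CC q d / n) ^ i * (1 / n))
        = (1 + CC q d / n) ^ (i + 1) * (1 / (n : ℝ)) := by ring
    rw [e2] at h2
    linarith

lemma mean_dist2_le' {q d n : ℕ} (hq : 1 ≤ q) (h : d ≤ n) (hn : 0 < n) {i : ℕ}
    (hi : i ≤ n * q) :
    mean q d n i (fun s => dist2 q s (LL q d n i)) ≤ Real.exp (CC q d * q) / n := by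
  have hn' : (0 : ℝ) < n := by exact_mod_cast hn
  have hC := CC_nonneg q d
  have h1 := mean_dist2_le hq h hn i
  have h2 : (1 + CC q d / n) ^ i ≤ Real.exp (CC q d * q) := by
    have h3 : 1 + CC q d / n ≤ Real.exp (CC q d / n) := by
      have := Real.add_one_le_exp (CC q d / n)
      linarith
    calc (1 + CC q d / n) ^ i ≤ Real.exp (CC q d / n) ^ i :=
          pow_le_pow_left₀ (by positivity) h3 i
      _ = Real.exp (i * (CC q d / n)) := by rw [← Real.exp_nat_mul]
      _ ≤ _ := by
          apply Real.exp_le_exp.mpr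
          have h4 : (i : ℝ) ≤ n * q := by exact_mod_cast hi
          calc (i : ℝ) * (CC q d / n) ≤ (n * q) * (CC q d / n) :=
                mul_le_mul_of_nonneg_right h4 (by positivity)
            _ = CC q d * q := by field_simp
  have h3 : (1 + CC q d / n) ^ i * (1 / n) ≤ Real.exp (CC q d * q) * (1 / n) :=
    mul_le_mul_of_nonneg_right h2 (by positivity)
  have h4 : Real.exp (CC q d * q) * (1 / n) = Real.exp (CC q d * q) / n := by ring
  have h5 : (0 : ℝ) ≤ 1 / n := by positivity
  linarith

/-- The matching probability of student `i + 1` is close to its fluid value. -/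
theorem abs_matchProb_sub_le {q d n : ℕ} (hq : 1 ≤ q) (h : d ≤ n) (hn : 0 < n) {i : ℕ}
    (hi : i ≤ n * q) :
    |matchProb n d q (i + 1) - (1 - YY q (LL q d n i) ^ d)|
      ≤ (d : ℝ) ^ 2 / n + d * Real.sqrt (Real.exp (CC q d * q) / n) := by
  classical
  have hn' : (0 : ℝ) < n := by exact_mod_cast hn
  rw [matchProb_succ q i h]
  have hkey := mean_dist2_le' hq h hn hi
  set t := LL q d n i with ht
  have ht0 : 0 ≤ t := LL_nonneg q d n i
  have hsingle : ∀ s : Fin n → ℕ, (lev s q - YY q t) ^ 2 ≤ dist2 q s t := by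
    intro s
    obtain ⟨r, hr⟩ : ∃ r, q = r + 1 := ⟨q - 1, by omega⟩
    have := single_le_sum (f := fun k => (lev s (k + 1) - YY (k + 1) t) ^ 2) (s := range q)
      (fun _ _ => sq_nonneg _) (mem_range.mpr (by omega : r < q))
    simp only [← hr] at this
    exact this
  have hmean : mean q d n i (fun s => |lev s q - YY q t|)
      ≤ Real.sqrt (Real.exp (CC q d * q) / n) := by
    apply Real.le_sqrt_of_sq_le
    refine (sq_mean_le h _).trans ?_
    refine le_trans ?_ hkey
    apply mean_mono
    intro s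
    rw [sq_abs]
    exact hsingle s
  have hpt : ∀ s : Fin n → ℕ,
      |avg d n (fun L => if choice q L s = none then (1 : ℝ) else 0) - YY q t ^ d|
        ≤ (d : ℝ) ^ 2 / n + d * |lev s q - YY q t| := by
    intro s
    have h1 := abs_avg_none_sub_le h hn s (q := q)
    have h2 := abs_pow_sub_pow_le' d (lev_nonneg s q) (lev_le_one s q) (YY_nonneg q ht0)
      (YY_le_one q ht0)
    have e : avg d n (fun L => if choice q L s = none then (1 : ℝ) else 0) - YY q t ^ d
        = (avg d n (fun L => if choice q L s = none then (1 : ℝ) else 0) - lev s q ^ d)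
          + (lev s q ^ d - YY q t ^ d) := by ring
    rw [e]
    exact (abs_add_le _ _).trans (add_le_add h1 h2)
  have hup : mean q d n i (fun s => avg d n (fun L => if choice q L s = none then (1 : ℝ) else 0))
      ≤ mean q d n i (fun s => (YY q t ^ d + (d : ℝ) ^ 2 / n) + d * |lev s q - YY q t|) := by
    apply mean_mono
    intro s
    have := (abs_le.mp (hpt s)).2
    linarith
  have hlo : mean q d n i (fun s => (YY q t ^ d - (d : ℝ) ^ 2 / n) + (-d) * |lev s q - YY q t|)
      ≤ mean q d n i
        (fun s => avg d n (fun L => if choice q L s = none then (1 : ℝ) else 0)) := by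
    apply mean_mono
    intro s
    have := (abs_le.mp (hpt s)).1
    linarith
  rw [mean_add q d n i (fun _ => YY q t ^ d + (d : ℝ) ^ 2 / n)
    (fun s => d * |lev s q - YY q t|), mean_const h, mean_mul_left] at hup
  rw [mean_add q d n i (fun _ => YY q t ^ d - (d : ℝ) ^ 2 / n)
    (fun s => (-d) * |lev s q - YY q t|), mean_const h, mean_mul_left] at hlo
  have h3 : (d : ℝ) * mean q d n i (fun s => |lev s q - YY q t|)
      ≤ d * Real.sqrt (Real.exp (CC q d * q) / n) :=
    mul_le_mul_of_nonneg_left hmean (by positivity)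
  rw [abs_le]
  constructor <;> linarith

end Q171SD
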