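import Pool.Agent.Q171.SD.OneStep

/-!
# Averages over random lists and random profiles
-/

namespace Q171SD

open Finset

/-- The number of preference lists. -/
noncomputable def cE (d n : ℕ) : ℝ := (Fintype.card (Fin d ↪ Fin n) : ℝ)

/-- The average over a uniformly random list. -/
noncomputable def avg (d n : ℕ) (ψ : (Fin d ↪ Fin n) → ℝ) : ℝ := (∑ L, ψ L) / cE d n

/-- The average over the state reached after `i` students. -/
noncomputable def mean (q d n i : ℕ) (φ : (Fin n → ℕ) → ℝ) : ℝ :=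
  (∑ p : Fin i → (Fin d ↪ Fin n), φ (occAfter q i p)) / cE d n ^ i

lemma cE_eq (d n : ℕ) : cE d n = (n.descFactorial d : ℝ) := by
  unfold cE
  rw [Fintype.card_embedding_eq]
  simp

lemma cE_pos {d n : ℕ} (h : d ≤ n) : 0 < cE d n := by
  rw [cE_eq]
  exact_mod_cast Nat.descFactorial_pos.mpr h

lemma cE_nonneg (d n : ℕ) : 0 ≤ cE d n := by
  unfold cE; positivity

lemma cE_le (d n : ℕ) : cE d n ≤ (n : ℝ) ^ d := by
  rw [cE_eq]
  exact_mod_cast Nat.descFactorial_le_pow n d

lemma le_cE {d n : ℕ} (h : d ≤ n) (hn : 0 < n) :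
    (n : ℝ) ^ d * (1 - (d : ℝ) ^ 2 / n) ≤ cE d n := by
  have hn' : (0 : ℝ) < n := by exact_mod_cast hn
  have h1 : ((n + 1 - d : ℕ) : ℝ) ^ d ≤ cE d n := by
    rw [cE_eq]
    exact_mod_cast Nat.pow_sub_le_descFactorial n d
  have h2 : ((n + 1 - d : ℕ) : ℝ) = n * (1 + (1 - d) / n) := by
    rw [Nat.cast_sub (by omega)]
    push_cast
    field_simp
    ring
  rw [h2, mul_pow] at h1
  refine le_trans ?_ h1
  apply mul_le_mul_of_nonneg_left _ (by positivity)
  have hb := one_add_mul_le_pow (a := (1 - (d : ℝ)) / n) ?_ d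
  · refine le_trans ?_ hb
    have : (d : ℝ) * ((1 - d) / n) = d / n - (d : ℝ) ^ 2 / n := by ring
    rw [this]
    have : (0 : ℝ) ≤ d / n := by positivity
    linarith
  · rw [le_div_iff₀ hn']
    have : (d : ℝ) ≤ n := by exact_mod_cast h
    linarith

/-- Comparison of a uniformly random injection with a uniformly random function. -/
lemma abs_avg_sub_le {d n : ℕ} (h : d ≤ n) (hn : 0 < n) (φ : (Fin d → Fin n) → ℝ)
    (h0 : ∀ f, 0 ≤ φ f) (h1 : ∀ f, φ f ≤ 1) :
    |avg d n (fun L => φ L) - (∑ f : Fin d → Fin n, φ f) / (n : ℝ) ^ d| ≤ (d : ℝ) ^ 2 / n := by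
  classical
  have hn' : (0 : ℝ) < n := by exact_mod_cast hn
  have hnd : (0 : ℝ) < (n : ℝ) ^ d := by positivity
  have hE := cE_pos h
  set E := cE d n with hEdef
  set S := ∑ L : Fin d ↪ Fin n, φ L with hS
  have hSsum : S = ∑ f ∈ univ.filter (fun f : Fin d → Fin n => Function.Injective f), φ f := by
    rw [hS]
    have e1 : ∑ f ∈ univ.filter (fun f : Fin d → Fin n => Function.Injective f), φ f
        = ∑ f : {f : Fin d → Fin n // Function.Injective f}, φ f.1 := by
      rw [← Finset.sum_subtype_eq_sum_filter]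
      simp
    rw [e1]
    symm
    apply Fintype.sum_equiv (Equiv.subtypeInjectiveEquivEmbedding (Fin d) (Fin n))
    intro x
    rfl
  set R := ∑ f ∈ univ.filter (fun f : Fin d → Fin n => ¬ Function.Injective f), φ f with hR
  have htot : ∑ f : Fin d → Fin n, φ f = S + R := by
    rw [hSsum, hR, sum_filter_add_sum_filter_not]
  have hcards : ((univ.filter (fun f : Fin d → Fin n => ¬ Function.Injective f)).card : ℝ)
      = (n : ℝ) ^ d - E := by
    have c1 : (univ.filter (fun f : Fin d → Fin n => Function.Injective f)).card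
        + (univ.filter (fun f : Fin d → Fin n => ¬ Function.Injective f)).card = n ^ d := by
      rw [card_filter_add_card_filter_not]
      simp
    have c2 : ((univ.filter (fun f : Fin d → Fin n => Function.Injective f)).card : ℝ) = E := by
      rw [hEdef]
      unfold cE
      rw [← Fintype.card_subtype]
      exact_mod_cast Fintype.card_congr (Equiv.subtypeInjectiveEquivEmbedding (Fin d) (Fin n))
    have c3 : ((univ.filter (fun f : Fin d → Fin n => Function.Injective f)).card : ℝ)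
        + (univ.filter (fun f : Fin d → Fin n => ¬ Function.Injective f)).card = (n : ℝ) ^ d := by
      exact_mod_cast c1
    linarith
  have hS0 : 0 ≤ S := sum_nonneg (fun L _ => h0 _)
  have hS1 : S ≤ E := by
    rw [hS, hEdef]
    unfold cE
    calc ∑ L : Fin d ↪ Fin n, φ L ≤ ∑ L : Fin d ↪ Fin n, 1 := sum_le_sum (fun L _ => h1 _)
      _ = _ := by simp
  have hR0 : 0 ≤ R := sum_nonneg (fun L _ => h0 _)
  have hR1 : R ≤ (n : ℝ) ^ d - E := by
    rw [← hcards, hR]
    calc ∑ f ∈ univ.filter (fun f : Fin d → Fin n => ¬ Function.Injective f), φ f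
        ≤ ∑ f ∈ univ.filter (fun f : Fin d → Fin n => ¬ Function.Injective f), (1 : ℝ) :=
          sum_le_sum (fun L _ => h1 _)
      _ = _ := by simp
  have hδ : ((n : ℝ) ^ d - E) / (n : ℝ) ^ d ≤ (d : ℝ) ^ 2 / n := by
    rw [div_le_iff₀ hnd]
    have := le_cE h hn
    rw [← hEdef] at this
    nlinarith
  have hEn : E ≤ (n : ℝ) ^ d := cE_le d n
  rw [htot]
  show |S / E - (S + R) / (n : ℝ) ^ d| ≤ _
  have e1 : S / E - (S + R) / (n : ℝ) ^ d
      = (S / E) * (((n : ℝ) ^ d - E) / (n : ℝ) ^ d) - R / (n : ℝ) ^ d := by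
    field_simp
    ring
  have hSE0 : 0 ≤ S / E := by positivity
  have hSE1 : S / E ≤ 1 := div_le_one_of_le₀ hS1 hE.le
  have hδ0 : 0 ≤ ((n : ℝ) ^ d - E) / (n : ℝ) ^ d := div_nonneg (by linarith) hnd.le
  have hRn0 : 0 ≤ R / (n : ℝ) ^ d := by positivity
  have hRn1 : R / (n : ℝ) ^ d ≤ ((n : ℝ) ^ d - E) / (n : ℝ) ^ d :=
    div_le_div_of_nonneg_right hR1 hnd.le
  rw [e1, abs_le]
  constructor
  · have : 0 ≤ (S / E) * (((n : ℝ) ^ d - E) / (n : ℝ) ^ d) := mul_nonneg hSE0 hδ0
    linarith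
  · have : (S / E) * (((n : ℝ) ^ d - E) / (n : ℝ) ^ d) ≤ ((n : ℝ) ^ d - E) / (n : ℝ) ^ d :=
      mul_le_of_le_one_left hδ0 hSE1
    linarith

lemma avg_add (d n : ℕ) (φ ψ : (Fin d ↪ Fin n) → ℝ) :
    avg d n (fun L => φ L + ψ L) = avg d n φ + avg d n ψ := by
  unfold avg; rw [sum_add_distrib, add_div]

lemma avg_mul_left (d n : ℕ) (a : ℝ) (φ : (Fin d ↪ Fin n) → ℝ) :
    avg d n (fun L => a * φ L) = a * avg d n φ := by
  unfold avg; rw [← mul_sum, mul_div_assoc]

lemma avg_sum (d n : ℕ) {ι : Type*} (t : Finset ι) (φ : ι → (Fin d ↪ Fin n) → ℝ) :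
    avg d n (fun L => ∑ k ∈ t, φ k L) = ∑ k ∈ t, avg d n (φ k) := by
  unfold avg; rw [sum_comm, sum_div]

lemma avg_const {d n : ℕ} (h : d ≤ n) (a : ℝ) : avg d n (fun _ => a) = a := by
  unfold avg
  have := (cE_pos h).ne'
  rw [sum_const, nsmul_eq_mul]
  unfold cE at *
  rw [card_univ]
  field_simp

lemma avg_mono {d n : ℕ} {φ ψ : (Fin d ↪ Fin n) → ℝ} (h : ∀ L, φ L ≤ ψ L) :
    avg d n φ ≤ avg d n ψ := by
  unfold avg
  exact div_le_div_of_nonneg_right (sum_le_sum (fun L _ => h L)) (cE_nonneg d n)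

lemma mean_zero (q d n : ℕ) (φ : (Fin n → ℕ) → ℝ) : mean q d n 0 φ = φ (fun _ => 0) := by
  unfold mean
  simp [occAfter]

lemma mean_succ (q d n i : ℕ) (φ : (Fin n → ℕ) → ℝ) :
    mean q d n (i + 1) φ = mean q d n i (fun s => avg d n (fun L => φ (step q L s))) := by
  unfold mean avg
  have h : ∑ p : Fin (i + 1) → (Fin d ↪ Fin n), φ (occAfter q (i + 1) p)
      = ∑ p : Fin i → (Fin d ↪ Fin n), ∑ L : Fin d ↪ Fin n, φ (step q L (occAfter q i p)) := by
    rw [sum_comm, ← Fintype.sum_prod_type']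
    apply Fintype.sum_equiv (Fin.snocEquiv (fun _ : Fin (i + 1) => (Fin d ↪ Fin n))).symm
    intro x
    rfl
  rw [h, ← sum_div, pow_succ, div_div, mul_comm]

lemma mean_mono {q d n i : ℕ} {φ ψ : (Fin n → ℕ) → ℝ} (h : ∀ s, φ s ≤ ψ s) :
    mean q d n i φ ≤ mean q d n i ψ := by
  unfold mean
  exact div_le_div_of_nonneg_right (sum_le_sum (fun L _ => h _)) (pow_nonneg (cE_nonneg d n) i)

lemma mean_add (q d n i : ℕ) (φ ψ : (Fin n → ℕ) → ℝ) :
    mean q d n i (fun s => φ s + ψ s) = mean q d n i φ + mean q d n i ψ := by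
  unfold mean; rw [sum_add_distrib, add_div]

lemma mean_mul_left (q d n i : ℕ) (a : ℝ) (φ : (Fin n → ℕ) → ℝ) :
    mean q d n i (fun s => a * φ s) = a * mean q d n i φ := by
  unfold mean; rw [← mul_sum, mul_div_assoc]

lemma mean_const {q d n i : ℕ} (h : d ≤ n) (a : ℝ) : mean q d n i (fun _ => a) = a := by
  unfold mean
  have := (cE_pos h).ne'
  rw [sum_const, nsmul_eq_mul]
  unfold cE at *
  rw [card_univ]
  rw [Fintype.card_fun, Fintype.card_fin]
  push_cast
  field_simp

lemma mean_nonneg {q d n i : ℕ} {φ : (Fin n → ℕ) → ℝ} (h : ∀ s, 0 ≤ φ s) :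
    0 ≤ mean q d n i φ := by
  unfold mean
  exact div_nonneg (sum_nonneg (fun L _ => h _)) (pow_nonneg (cE_nonneg d n) i)

/-- Cauchy–Schwarz. -/
lemma sq_mean_le {q d n i : ℕ} (h : d ≤ n) (φ : (Fin n → ℕ) → ℝ) :
    (mean q d n i φ) ^ 2 ≤ mean q d n i (fun s => φ s ^ 2) := by
  have hc : ∀ a : ℝ, 0 ≤ mean q d n i (fun s => (φ s + a) ^ 2) :=
    fun a => mean_nonneg (fun s => sq_nonneg _)
  have e : ∀ a : ℝ, mean q d n i (fun s => (φ s + a) ^ 2)
      = mean q d n i (fun s => φ s ^ 2) + 2 * a * mean q d n i φ + a ^ 2 := by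
    intro a
    have : (fun s => (φ s + a) ^ 2) = (fun s => (φ s ^ 2 + (2 * a) * φ s) + a ^ 2) := by
      funext s; ring
    rw [this, mean_add q d n i (fun s => φ s ^ 2 + (2 * a) * φ s) (fun _ => a ^ 2), mean_const h,
      mean_add, mean_mul_left]
  have := hc (-(mean q d n i φ))
  rw [e] at this
  nlinarith

open Classical in
lemma matchProb_succ {n d : ℕ} (q i : ℕ) (h : d ≤ n) :
    matchProb n d q (i + 1) =
      1 - mean q d n i (fun s => avg d n (fun L => if choice q L s = none then (1 : ℝ) else 0)) := by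
  have hE := (cE_pos h).ne'
  have h1 : matchProb n d q (i + 1) = (∑ p : Fin (i + 1) → (Fin d ↪ Fin n),
      (if choice q (p (Fin.last i)) (occAfter q i (fun j => p j.castSucc)) = none then (0 : ℝ)
        else 1)) / cE d n ^ (i + 1) := by
    show (Fintype.card {p : Fin (i + 1) → (Fin d ↪ Fin n) // LastMatched q i p} : ℝ) /
      (Fintype.card (Fin (i + 1) → (Fin d ↪ Fin n)) : ℝ) = _
    congr 1
    · rw [Fintype.card_subtype, ← Finset.sum_boole]
      apply sum_congr rfl
      intro p _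
      unfold LastMatched
      by_cases hc : choice q (p (Fin.last i)) (occAfter q i (fun j => p j.castSucc)) = none
      · rw [if_pos hc, if_neg]
        rw [hc]; simp
      · rw [if_neg hc, if_pos]
        exact Option.isSome_iff_ne_none.mpr hc
    · unfold cE
      rw [Fintype.card_fun, Fintype.card_fin]
      push_cast
      rfl
  have h2 : ∑ p : Fin (i + 1) → (Fin d ↪ Fin n),
      (if choice q (p (Fin.last i)) (occAfter q i (fun j => p j.castSucc)) = none then (0 : ℝ)
        else 1)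
      = ∑ p : Fin i → (Fin d ↪ Fin n), ∑ L : Fin d ↪ Fin n,
        (if choice q L (occAfter q i p) = none then (0 : ℝ) else 1) := by
    rw [sum_comm, ← Fintype.sum_prod_type']
    apply Fintype.sum_equiv (Fin.snocEquiv (fun _ : Fin (i + 1) => (Fin d ↪ Fin n))).symm
    intro x
    rfl
  rw [h1, h2]
  have h3 : ∀ s : Fin n → ℕ, ∑ L : Fin d ↪ Fin n, (if choice q L s = none then (0 : ℝ) else 1)
      = cE d n - ∑ L : Fin d ↪ Fin n, (if choice q L s = none then (1 : ℝ) else 0) := by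
    intro s
    have : cE d n = ∑ L : Fin d ↪ Fin n, (1 : ℝ) := by simp [cE]
    rw [this, ← sum_sub_distrib]
    apply sum_congr rfl
    intro L _
    split_ifs <;> norm_num
  simp only [h3]
  rw [sum_sub_distrib]
  have h4 : ∑ p : Fin i → (Fin d ↪ Fin n), cE d n = cE d n ^ (i + 1) := by
    rw [sum_const, nsmul_eq_mul, card_univ, Fintype.card_fun, Fintype.card_fin, pow_succ]
    unfold cE
    push_cast
    rfl
  rw [h4, sub_div, div_self (by positivity)]
  congr 1
  unfold mean avg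
  rw [← sum_div, pow_succ, div_div, mul_comm]

end Q171SD
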