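import Mathlib

/-!
# Serial dictatorship with multi-seat schools: the model

Schools are the elements of `Fin n`, every school has `q` seats.  A preference list of length `d`
is an injection `Fin d ↪ Fin n` (`L 0` is the most preferred school).  Students act in the order
`1, 2, 3, …`.
-/

namespace Q171SD

/-- The school taken by a student with preference list `L` when `occ v` seats of the school `v`
are already taken: the first school on the list with fewer than `q` taken seats
(`none` if every school on the list is full). -/
def choice (q : ℕ) {d n : ℕ} (L : Fin d → Fin n) (occ : Fin n → ℕ) : Option (Fin n) :=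
  (List.ofFn L).find? (fun v => decide (occ v < q))

/-- The number of taken seats of every school after a student with list `L` has acted. -/
def step (q : ℕ) {d n : ℕ} (L : Fin d → Fin n) (occ : Fin n → ℕ) : Fin n → ℕ :=
  match choice q L occ with
  | none => occ
  | some v => Function.update occ v (occ v + 1)

/-- `occAfter q i p v` is the number of taken seats of the school `v` after the first `i` students,
with the preference lists `p`, have acted. -/
def occAfter (q : ℕ) {d n : ℕ} : (i : ℕ) → (Fin i → (Fin d ↪ Fin n)) → Fin n → ℕ
  | 0, _ => fun _ => 0
  | i + 1, p => step q (p (Fin.last i)) (occAfter q i (fun j => p j.castSucc))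

/-- `LastMatched q i p`: in the profile `p` of the lists of the first `i + 1` students,
student number `i + 1` is matched. -/
def LastMatched (q : ℕ) {d n : ℕ} (i : ℕ) (p : Fin (i + 1) → (Fin d ↪ Fin n)) : Prop :=
  (choice q (p (Fin.last i)) (occAfter q i (fun j => p j.castSucc))).isSome = true

instance (q : ℕ) {d n : ℕ} (i : ℕ) : DecidablePred (LastMatched q (d := d) (n := n) i) :=
  fun _ => inferInstanceAs (Decidable (_ = _))

/-- `matchProb n d q i`: the probability that student number `i` (`i = 1, 2, 3, …`) is matched,
when there are `n` schools with `q` seats each and the students have independent uniformly random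
lists of `d` distinct schools; that is, the proportion of the profiles of the lists of the first
`i` students in which student `i` is matched. -/
noncomputable def matchProb (n d q : ℕ) : ℕ → ℝ
  | 0 => 0
  | i + 1 => (Fintype.card {p : Fin (i + 1) → (Fin d ↪ Fin n) // LastMatched q i p} : ℝ) /
      (Fintype.card (Fin (i + 1) → (Fin d ↪ Fin n)) : ℝ)

end Q171SD
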