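import Pool.Agent.Q171.SD.Model

/-!
# One step of serial dictatorship
-/

namespace Q171SD

open Finset

/-- The proportion of the schools with at least `k` taken seats. -/
noncomputable def lev {n : ℕ} (s : Fin n → ℕ) (k : ℕ) : ℝ :=
  ((univ.filter (fun v => k ≤ s v)).card : ℝ) / n

/-- The student takes a seat at a school with exactly `k` taken seats. -/
def Hit (q : ℕ) {d n : ℕ} (L : Fin d → Fin n) (s : Fin n → ℕ) (k : ℕ) : Prop :=
  ∃ v, choice q L s = some v ∧ s v = k

/-- `lam d y = 1 + y + ⋯ + y ^ (d - 1)`. -/
noncomputable def lam (d : ℕ) (y : ℝ) : ℝ := ∑ j ∈ range d, y ^ j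

lemma lam_succ (d : ℕ) (y : ℝ) : lam (d + 1) y = 1 + y * lam d y := by
  unfold lam
  rw [sum_range_succ', mul_sum, add_comm]
  simp [pow_succ, mul_comm]

lemma choice_zero (q : ℕ) {n : ℕ} (L : Fin 0 → Fin n) (s : Fin n → ℕ) :
    choice q L s = none := by
  simp [choice]

lemma choice_cons (q : ℕ) {d n : ℕ} (v : Fin n) (L : Fin d → Fin n) (s : Fin n → ℕ) :
    choice q (Fin.cons v L : Fin (d + 1) → Fin n) s = if s v < q then some v else choice q L s := by
  unfold choice
  rw [List.ofFn_succ]
  simp only [Fin.cons_zero, Fin.cons_succ, List.find?_cons]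
  by_cases h : s v < q <;> simp [h]

lemma sum_cons {d n : ℕ} (φ : (Fin (d + 1) → Fin n) → ℝ) :
    ∑ f : Fin (d + 1) → Fin n, φ f = ∑ v : Fin n, ∑ g : Fin d → Fin n, φ (Fin.cons v g) := by
  rw [← Fintype.sum_prod_type']
  symm
  apply Fintype.sum_equiv (Fin.consEquiv (fun _ : Fin (d + 1) => Fin n))
  intro x
  rfl

lemma sum_ite_const {n : ℕ} (p : Fin n → Prop) [DecidablePred p] (a : ℝ) :
    ∑ v : Fin n, (if p v then a else 0) = (univ.filter p).card * a := by
  rw [← sum_filter, sum_const, nsmul_eq_mul]

open Classical in
lemma sum_none (q d n : ℕ) (s : Fin n → ℕ) :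
    ∑ f : Fin d → Fin n, (if choice q f s = none then (1 : ℝ) else 0)
      = ((univ.filter (fun v => q ≤ s v)).card : ℝ) ^ d := by
  induction d with
  | zero => simp [choice_zero]
  | succ d ih =>
    rw [sum_cons]
    have h : ∀ v : Fin n, ∑ g : Fin d → Fin n,
        (if choice q (Fin.cons v g : Fin (d + 1) → Fin n) s = none then (1 : ℝ) else 0)
        = if q ≤ s v then ((univ.filter (fun v => q ≤ s v)).card : ℝ) ^ d else 0 := by
      intro v
      simp only [choice_cons]
      by_cases hv : s v < q
      · have hv' : ¬ q ≤ s v := by omega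
        simp [hv, hv']
      · have hv' : q ≤ s v := by omega
        simp only [hv, hv', if_false, if_true]
        exact ih
    simp only [h]
    rw [sum_ite_const]
    ring

open Classical in
lemma sum_hit (q d n : ℕ) (s : Fin n → ℕ) (k : ℕ) (hk : k < q) :
    (∑ f : Fin d → Fin n, (if Hit q f s k then (1 : ℝ) else 0))
      = (n : ℝ) ^ d * ((lev s k - lev s (k + 1)) * lam d (lev s q)) := by
  rcases Nat.eq_zero_or_pos n with hn | hn
  · subst hn
    have hlev : ∀ k, lev s k = 0 := by intro k; simp [lev]
    rw [hlev, hlev]
    simp only [sub_self, zero_mul, mul_zero]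
    apply sum_eq_zero
    intro f _
    rw [if_neg]
    rintro ⟨v, -, -⟩
    exact Fin.elim0 v
  have hn' : (n : ℝ) ≠ 0 := by positivity
  have hcard : (univ.filter (fun v => s v = k)).card + (univ.filter (fun v => k + 1 ≤ s v)).card
      = (univ.filter (fun v => k ≤ s v)).card := by
    rw [← card_union_of_disjoint]
    · congr 1
      ext v
      simp only [mem_union, mem_filter, mem_univ, true_and]
      omega
    · rw [disjoint_left]
      intro v
      simp only [mem_filter, mem_univ, true_and]
      omega
  have hN : ((univ.filter (fun v => s v = k)).card : ℝ) = n * (lev s k - lev s (k + 1)) := by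
    unfold lev
    have : ((univ.filter (fun v => s v = k)).card : ℝ) + (univ.filter (fun v => k + 1 ≤ s v)).card
      = (univ.filter (fun v => k ≤ s v)).card := by exact_mod_cast hcard
    field_simp
    linarith
  induction d with
  | zero => simp [Hit, choice_zero, lam]
  | succ d ih =>
    rw [sum_cons]
    have h : ∀ v : Fin n, ∑ g : Fin d → Fin n,
        (if Hit q (Fin.cons v g : Fin (d + 1) → Fin n) s k then (1 : ℝ) else 0)
        = (if s v = k then (n : ℝ) ^ d else 0) +
          (if q ≤ s v then (n : ℝ) ^ d * ((lev s k - lev s (k + 1)) * lam d (lev s q)) else 0) := by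
      intro v
      simp only [Hit, choice_cons]
      by_cases hv : s v < q
      · have hv' : ¬ q ≤ s v := by omega
        simp only [hv, hv', if_true, if_false, add_zero]
        by_cases hk' : s v = k
        · simp [hk']
        · simp [hk']
      · have hv' : q ≤ s v := by omega
        have hv'' : s v ≠ k := by omega
        simp only [hv, hv', hv'', if_false, if_true, zero_add]
        rw [← ih]
        apply sum_congr rfl
        intro g _
        unfold Hit
        by_cases hx : ∃ v, choice q g s = some v ∧ s v = k
        · rw [if_pos hx, if_pos hx]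
        · rw [if_neg hx, if_neg hx]
    simp only [h]
    rw [sum_add_distrib, sum_ite_const, sum_ite_const, hN, lam_succ]
    have hF : ((univ.filter (fun v => q ≤ s v)).card : ℝ) = n * lev s q := by
      unfold lev; field_simp
    rw [hF]
    ring

lemma lev_zero {n : ℕ} (hn : 0 < n) (s : Fin n → ℕ) : lev s 0 = 1 := by
  unfold lev
  have : (n : ℝ) ≠ 0 := by positivity
  simp [this]

lemma lev_nonneg {n : ℕ} (s : Fin n → ℕ) (k : ℕ) : 0 ≤ lev s k := by
  unfold lev; positivity

lemma lev_le_one {n : ℕ} (s : Fin n → ℕ) (k : ℕ) : lev s k ≤ 1 := by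
  unfold lev
  apply div_le_one_of_le₀ _ (by positivity)
  have := card_le_univ (univ.filter (fun v => k ≤ s v))
  rw [Fintype.card_fin] at this
  exact_mod_cast this

open Classical in
/-- The effect of one student on the levels. -/
lemma lev_step (q : ℕ) {d n : ℕ} (L : Fin d → Fin n) (s : Fin n → ℕ) (k : ℕ) :
    lev (step q L s) (k + 1) = lev s (k + 1) + (if Hit q L s k then (1 : ℝ) else 0) / n := by
  unfold step Hit
  rcases hc : choice q L s with _ | v
  · simp
  · simp only [Option.some.injEq, exists_eq_left']
    unfold lev
    rw [← add_div]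
    congr 1
    by_cases hv : s v = k
    · rw [if_pos hv]
      have : (univ.filter (fun w => k + 1 ≤ Function.update s v (s v + 1) w))
          = insert v (univ.filter (fun w => k + 1 ≤ s w)) := by
        ext w
        simp only [mem_filter, mem_univ, true_and, mem_insert, Function.update_apply]
        by_cases hw : w = v
        · simp [hw, hv]
        · simp [hw]
      rw [this, card_insert_of_notMem]
      · push_cast; ring
      · simp [hv]
    · rw [if_neg hv, add_zero]
      congr 2
      ext w
      simp only [mem_filter, mem_univ, true_and, Function.update_apply]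
      by_cases hw : w = v
      · subst hw
        simp only [if_true]
        omega
      · simp [hw]

end Q171SD
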